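import Mathlib

/-!
# Interface between the lattice part and the ideal part of the twisted zeta sums
-/

namespace Pool.Agent.MP_058a58_ag.Ch

open NumberField Filter Topology

variable (K : Type*) [Field K] [NumberField K]

/-- the weighted norm on the ring of integers -/
noncomputable def Fs (w : 𝓞 K → ℝ) (s : ℝ) (x : 𝓞 K) : ℝ :=
  w x * (|(Algebra.norm ℤ x : ℝ)|) ^ (-s)

/-- an admissible weight on the ring of integers -/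
structure WOK (w : 𝓞 K → ℝ) : Prop where
  nonneg : ∀ x, 0 ≤ w x
  zero : w 0 = 0
  unit : ∀ x : 𝓞 K, x ≠ 0 → HasSum (fun u : (𝓞 K)ˣ => w (u * x)) 1
  summ : ∀ s : ℝ, 1 < s → Summable (Fs K w s)
  can : ∀ (g : 𝓞 K → ℂ) (M : ℝ), (∀ x, ‖g x‖ ≤ M) →
    ∀ (N : ℕ) (γ : Fin N → 𝓞 K), 1 ≤ N → (∀ b : 𝓞 K, ∑ j, g (b + γ j) = 0) →
    ∃ l : ℂ, Tendsto (fun s : ℝ => ∑' x : 𝓞 K, g x * (Fs K w s x : ℂ)) (𝓝[>] 1) (𝓝 l)

/-- the lattice part -/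
def S_CH1 : Prop := ∀ (K : Type) [Field K] [NumberField K], ∃ w : 𝓞 K → ℝ, WOK K w

open scoped Classical in
/-- the ideal `I` with `(x) = b I` if `b ∣ (x)`, and `0` otherwise -/
noncomputable def quo (b : Ideal (𝓞 K)) (x : 𝓞 K) : Ideal (𝓞 K) :=
  if hx : b ∣ Ideal.span {x} then hx.choose else ⊥

open scoped Classical in
/-- the function `f ((x) b⁻¹)` on `b ∖ 0`, extended by zero -/
noncomputable def unf (f : Ideal (𝓞 K) → ℂ) (b : Ideal (𝓞 K)) (x : 𝓞 K) : ℂ :=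
  if x ≠ 0 ∧ b ∣ Ideal.span {x} then f (quo K b x) else 0

/-- unfolding: sums over ideals as weighted sums over ring elements -/
def S_unfold : Prop := ∀ (K : Type) [Field K] [NumberField K] (w : 𝓞 K → ℝ), WOK K w →
  ∃ (h : ℕ) (b : Fin h → Ideal (𝓞 K)), (∀ i, b i ≠ ⊥) ∧
    ∀ (f : Ideal (𝓞 K) → ℂ) (M : ℝ), (∀ I, ‖f I‖ ≤ M) → ∀ s : ℝ, 1 < s →
      HasSum (fun I : {I : Ideal (𝓞 K) // I ≠ ⊥} =>
          f I * (((Ideal.absNorm I.1 : ℝ) ^ (-s) : ℝ) : ℂ))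
        (∑ i, (((Ideal.absNorm (b i) : ℝ) ^ s : ℝ) : ℂ) *
          ∑' x : 𝓞 K, unf K f (b i) x * (Fs K w s x : ℂ))

/-- **the twisted zeta sum of a number field has a finite limit at `s = 1`** -/
def S_lim_twist : Prop := ∀ (K : Type) [Field K] [NumberField K] (m : ℕ) [NeZero m]
    (χ : DirichletCharacter ℂ m), χ.Even →
    (∃ q : Ideal (𝓞 K), q ≠ ⊥ ∧ IsCoprime q (Ideal.span {(m : 𝓞 K)}) ∧
      χ (Ideal.absNorm q : ZMod m) ≠ 1) →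
    (∀ s : ℝ, 1 < s → Summable (fun I : {I : Ideal (𝓞 K) // I ≠ ⊥} =>
      χ (Ideal.absNorm I.1 : ZMod m) * (((Ideal.absNorm I.1 : ℝ) ^ (-s) : ℝ) : ℂ))) ∧
    ∃ l : ℂ, Tendsto (fun s : ℝ => ∑' I : {I : Ideal (𝓞 K) // I ≠ ⊥},
      χ (Ideal.absNorm I.1 : ZMod m) * (((Ideal.absNorm I.1 : ℝ) ^ (-s) : ℝ) : ℂ))
      (𝓝[>] 1) (𝓝 l)

end Pool.Agent.MP_058a58_ag.Ch
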