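import Mathlib

/-!
# Tent functions and their partition of unity on `ℤ^r`
-/

namespace Pool.Agent.MP_058a58_ag.Ch

open Finset

/-- The tent function `max 0 (1 - |t|)`. -/
noncomputable def tent (t : ℝ) : ℝ := max 0 (1 - |t|)

lemma tent_nonneg (t : ℝ) : 0 ≤ tent t := le_max_left _ _

lemma tent_le_one (t : ℝ) : tent t ≤ 1 :=
  max_le zero_le_one (by linarith [abs_nonneg t])

lemma tent_lip (a b : ℝ) : |tent a - tent b| ≤ |a - b| := by
  unfold tent
  refine (abs_max_sub_max_le_max 0 (1 - |a|) 0 (1 - |b|)).trans ?_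
  have h1 : |1 - |a| - (1 - |b|)| = abs (abs b - abs a) := by congr 1; ring
  rw [sub_self, abs_zero, h1]
  refine max_le (abs_nonneg _) ?_
  rw [abs_sub_comm a b]
  exact abs_abs_sub_abs_le_abs_sub b a

lemma abs_lt_of_tent_ne_zero {t : ℝ} (h : tent t ≠ 0) : |t| < 1 := by
  by_contra hc
  apply h
  unfold tent
  apply max_eq_left
  linarith [not_lt.mp hc]

lemma tent_of_abs_ge {t : ℝ} (h : 1 ≤ |t|) : tent t = 0 := by
  by_contra hc
  linarith [abs_lt_of_tent_ne_zero hc]

/-- the two integers `n` for which `tent (y + n)` can be nonzero -/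
noncomputable def tsup (y : ℝ) : Finset ℤ := {-⌊y⌋, -⌊y⌋ - 1}

lemma tent_eq_zero_of_notMem {y : ℝ} {n : ℤ} (h : n ∉ tsup y) : tent (y + n) = 0 := by
  by_contra hc
  have h1 := abs_lt.mp (abs_lt_of_tent_ne_zero hc)
  apply h
  unfold tsup
  rw [Finset.mem_insert, Finset.mem_singleton]
  have h2 := Int.floor_le y
  have h3 := Int.lt_floor_add_one y
  have h4 : ((⌊y⌋ + n : ℤ) : ℝ) < 1 := by push_cast; linarith
  have h5 : (-2 : ℝ) < ((⌊y⌋ + n : ℤ) : ℝ) := by push_cast; linarith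
  have h6 : ⌊y⌋ + n < 1 := by exact_mod_cast h4
  have h7 : (-2 : ℤ) < ⌊y⌋ + n := by exact_mod_cast h5
  omega

lemma sum_tent (y : ℝ) : ∑ n ∈ tsup y, tent (y + n) = 1 := by
  unfold tsup
  rw [Finset.sum_pair (by omega)]
  have h2 := Int.floor_le y
  have h3 := Int.lt_floor_add_one y
  unfold tent
  push_cast
  have e1 : |y + -(⌊y⌋ : ℝ)| = y - ⌊y⌋ := by
    rw [abs_of_nonneg (by linarith)]; ring
  have e2 : |y + (-(⌊y⌋ : ℝ) - 1)| = 1 - (y - ⌊y⌋) := by
    rw [abs_of_nonpos (by linarith)]; ring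
  rw [e1, e2, max_eq_right (by linarith), max_eq_right (by linarith)]
  ring

lemma hasSum_tents {r : ℕ} (y : Fin r → ℝ) :
    HasSum (fun n : Fin r → ℤ => ∏ i, tent (y i + n i)) 1 := by
  have h1 : ∑ n ∈ Fintype.piFinset (fun i => tsup (y i)), ∏ i, tent (y i + n i) = 1 := by
    rw [← Finset.prod_univ_sum (fun i => tsup (y i)) (fun i k => tent (y i + k))]
    exact Finset.prod_eq_one fun i _ => sum_tent (y i)
  have h2 := hasSum_sum_of_ne_finset_zero (L := SummationFilter.unconditional _)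
    (f := fun n : Fin r → ℤ => ∏ i, tent (y i + n i))
    (s := Fintype.piFinset (fun i => tsup (y i))) ?_
  · rwa [h1] at h2
  · intro n hn
    rw [Fintype.mem_piFinset] at hn
    push Not at hn
    obtain ⟨i, hi⟩ := hn
    exact Finset.prod_eq_zero (Finset.mem_univ i) (tent_eq_zero_of_notMem hi)

/-- products of numbers of `[0,1]` -/
lemma prod_sub_prod_le {ι : Type*} (s : Finset ι) (a b : ι → ℝ)
    (ha : ∀ i, |a i| ≤ 1) (hb : ∀ i, |b i| ≤ 1) :
    |∏ i ∈ s, a i - ∏ i ∈ s, b i| ≤ ∑ i ∈ s, |a i - b i| := by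
  classical
  induction s using Finset.induction_on with
  | empty => simp
  | insert j s hj ih =>
    rw [Finset.prod_insert hj, Finset.prod_insert hj, Finset.sum_insert hj]
    have e : a j * ∏ i ∈ s, a i - b j * ∏ i ∈ s, b i
        = (a j - b j) * ∏ i ∈ s, a i + b j * (∏ i ∈ s, a i - ∏ i ∈ s, b i) := by ring
    rw [e]
    refine (abs_add_le _ _).trans (add_le_add ?_ ?_)
    · rw [abs_mul]
      refine mul_le_of_le_one_right (abs_nonneg _) ?_
      rw [Finset.abs_prod]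
      exact Finset.prod_le_one (fun i _ => abs_nonneg _) (fun i _ => ha i)
    · rw [abs_mul]
      calc |b j| * |∏ i ∈ s, a i - ∏ i ∈ s, b i|
          ≤ 1 * |∏ i ∈ s, a i - ∏ i ∈ s, b i| :=
            mul_le_mul_of_nonneg_right (hb j) (abs_nonneg _)
        _ ≤ _ := by rw [one_mul]; exact ih

end Pool.Agent.MP_058a58_ag.Ch
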