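import Mathlib
import Pool.Agent.Lib.MP_058a58_ag.Ch.Tent

/-!
# A partition of unity for the action of the units of a number field
-/

namespace Pool.Agent.MP_058a58_ag.Ch

open Finset NumberField NumberField.mixedEmbedding NumberField.Units
  NumberField.Units.dirichletUnitTheorem Module

variable (K : Type*) [Field K] [NumberField K]

open scoped Classical in
/-- the basis of the unit lattice as a real basis -/
noncomputable def ubasis : Basis (Fin (rank K)) ℝ (logSpace K) :=
  (basisUnitLattice K).ofZLatticeBasis ℝ (unitLattice K)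

/-- coordinates of `logMap x` -/
noncomputable def uco (x : mixedSpace K) (i : Fin (rank K)) : ℝ :=
  (ubasis K).repr (logMap x) i

/-- the weight -/
noncomputable def wt (x : mixedSpace K) : ℝ :=
  if mixedEmbedding.norm x = 0 then 0 else ∏ i, tent (uco K x i)

lemma wt_nonneg (x : mixedSpace K) : 0 ≤ wt K x := by
  unfold wt
  split
  · exact le_rfl
  · exact Finset.prod_nonneg fun i _ => tent_nonneg _

lemma wt_le_one (x : mixedSpace K) : wt K x ≤ 1 := by
  unfold wt
  split
  · exact zero_le_one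
  · exact Finset.prod_le_one (fun i _ => tent_nonneg _) (fun i _ => tent_le_one _)

lemma norm_ne_zero_of_wt {x : mixedSpace K} (h : wt K x ≠ 0) : mixedEmbedding.norm x ≠ 0 := by
  intro h0
  apply h
  unfold wt
  rw [if_pos h0]

lemma uco_lt_of_wt {x : mixedSpace K} (h : wt K x ≠ 0) (i : Fin (rank K)) :
    |uco K x i| < 1 := by
  have h0 := norm_ne_zero_of_wt K h
  unfold wt at h
  rw [if_neg h0] at h
  exact abs_lt_of_tent_ne_zero (Finset.prod_ne_zero_iff.mp h i (Finset.mem_univ i))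

lemma wt_of_ne {x : mixedSpace K} (h : mixedEmbedding.norm x ≠ 0) :
    wt K x = ∏ i, tent (uco K x i) := by
  unfold wt
  rw [if_neg h]

lemma logEmbedding_prod (ζ : torsion K) (e : Fin (rank K) → ℤ) :
    logEmbedding K (Additive.ofMul ((ζ : (𝓞 K)ˣ) * ∏ i, (fundSystem K i) ^ (e i)))
      = ∑ i, (e i : ℝ) • ubasis K i := by
  rw [ofMul_mul, map_add, logEmbedding_eq_zero_iff.mpr ζ.2, zero_add, ofMul_prod, map_sum]
  refine Finset.sum_congr rfl fun i _ => ?_
  rw [ofMul_zpow, map_zsmul, logEmbedding_fundSystem]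
  unfold ubasis
  rw [Basis.ofZLatticeBasis_apply, Int.cast_smul_eq_zsmul]

lemma uco_unit_smul (x : mixedSpace K) (hx : mixedEmbedding.norm x ≠ 0) (ζ : torsion K)
    (e : Fin (rank K) → ℤ) (i : Fin (rank K)) :
    uco K (((ζ : (𝓞 K)ˣ) * ∏ i, (fundSystem K i) ^ (e i)) • x) i = uco K x i + e i := by
  unfold uco
  rw [logMap_unit_smul _ hx, logEmbedding_prod, map_add, Finsupp.add_apply, add_comm]
  congr 1
  rw [map_sum, Finsupp.finsetSum_apply]
  simp_rw [map_smul, Basis.repr_self, Finsupp.smul_apply, Finsupp.single_apply, smul_eq_mul,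
    mul_ite, mul_one, mul_zero]
  simp

/-- the units as a product -/
noncomputable def unitEquiv : torsion K × (Fin (rank K) → ℤ) ≃ (𝓞 K)ˣ :=
  Equiv.ofBijective (fun p => (p.1 : (𝓞 K)ˣ) * ∏ i, (fundSystem K i) ^ (p.2 i)) (by
    constructor
    · intro p q hpq
      obtain ⟨r, hr, hu⟩ := exist_unique_eq_mul_prod K
        ((p.1 : (𝓞 K)ˣ) * ∏ i, (fundSystem K i) ^ (p.2 i))
      rw [hu p rfl, hu q hpq]
    · intro u
      obtain ⟨r, hr, hu⟩ := exist_unique_eq_mul_prod K u
      exact ⟨r, hr.symm⟩)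

lemma unitEquiv_apply (p : torsion K × (Fin (rank K) → ℤ)) :
    unitEquiv K p = (p.1 : (𝓞 K)ˣ) * ∏ i, (fundSystem K i) ^ (p.2 i) := rfl

lemma hasSum_one_finite (T : Type*) [Finite T] :
    HasSum (fun _ : T => (1 : ℝ)) (Nat.card T : ℝ) := by
  have := Fintype.ofFinite T
  have h := hasSum_fintype (fun _ : T => (1 : ℝ))
  rw [Finset.sum_const, Finset.card_univ, nsmul_eq_mul, mul_one] at h
  rwa [Nat.card_eq_fintype_card]

lemma hasSum_prod_aux (T : Type*) [Finite T] {r : ℕ} (g : (Fin r → ℤ) → ℝ)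
    (h0 : ∀ e, 0 ≤ g e) (hg : HasSum g 1) :
    HasSum (fun p : T × (Fin r → ℤ) => g p.2) (Nat.card T : ℝ) := by
  have h2 := hasSum_one_finite T
  have h3 : Summable (fun p : T × (Fin r → ℤ) => (fun _ : T => (1 : ℝ)) p.1 * g p.2) :=
    Summable.mul_of_nonneg h2.summable hg.summable (fun _ => zero_le_one) h0
  have h4 := HasSum.mul (f := fun _ : T => (1 : ℝ)) (g := g) h2 hg h3
  simp only [mul_one, one_mul] at h4
  exact h4

lemma hasSum_prod_tents (T : Type*) [Finite T] {r : ℕ} (y : Fin r → ℝ) :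
    HasSum (fun p : T × (Fin r → ℤ) => ∏ i, tent (y i + p.2 i)) (Nat.card T : ℝ) :=
  hasSum_prod_aux T (fun e : Fin r → ℤ => ∏ i, tent (y i + e i))
    (fun _ => Finset.prod_nonneg fun _ _ => tent_nonneg _) (hasSum_tents y)

lemma wt_unitEquiv (x : mixedSpace K) (hx : mixedEmbedding.norm x ≠ 0)
    (p : torsion K × (Fin (rank K) → ℤ)) :
    wt K ((unitEquiv K p) • x) = ∏ i, tent (uco K x i + p.2 i) := by
  rw [unitEquiv_apply, wt_of_ne K (by rwa [norm_unit_smul])]
  exact Finset.prod_congr rfl fun i _ => by rw [uco_unit_smul K x hx]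

/-- **the weights of a unit orbit sum to the number of roots of unity** -/
theorem hasSum_wt (x : mixedSpace K) (hx : mixedEmbedding.norm x ≠ 0) :
    HasSum (fun u : (𝓞 K)ˣ => wt K (u • x)) (torsionOrder K : ℝ) := by
  have h := hasSum_prod_tents (torsion K) (uco K x)
  have e : (fun u : (𝓞 K)ˣ => wt K (u • x)) ∘ (unitEquiv K)
      = fun p : torsion K × (Fin (rank K) → ℤ) => ∏ i, tent (uco K x i + p.2 i) :=
    funext fun p => wt_unitEquiv K x hx p
  rw [← (unitEquiv K).hasSum_iff, e]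
  exact h

end Pool.Agent.MP_058a58_ag.Ch
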