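import Mathlib
import Pool.Agent.Lib.MP_058a58_ag.Ch.Weight

/-!
# Lipschitz bounds for the weighted norm
-/

namespace Pool.Agent.MP_058a58_ag.Ch

open Finset NumberField NumberField.mixedEmbedding NumberField.Units NumberField.InfinitePlace
  NumberField.Units.dirichletUnitTheorem Module

variable (K : Type*) [Field K] [NumberField K]

/-- deviation at the place `v` -/
noncomputable def dev (x : mixedSpace K) (v : InfinitePlace K) : ℝ :=
  Real.log (normAtPlace v x) - Real.log (mixedEmbedding.norm x) * (finrank ℚ K : ℝ)⁻¹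

lemma sum_mult_real : ∑ v : InfinitePlace K, (mult v : ℝ) = (finrank ℚ K : ℝ) := by
  have h := sum_mult_eq (K := K)
  exact_mod_cast h

lemma log_norm_eq (x : mixedSpace K) (hx : mixedEmbedding.norm x ≠ 0) :
    Real.log (mixedEmbedding.norm x)
      = ∑ v : InfinitePlace K, (mult v : ℝ) * Real.log (normAtPlace v x) := by
  rw [mixedEmbedding.norm_apply, Real.log_prod]
  · exact Finset.sum_congr rfl fun v _ => by rw [Real.log_pow]
  · intro v _
    exact pow_ne_zero _ (mixedEmbedding.norm_ne_zero_iff.mp hx v)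

lemma sum_mult_dev (x : mixedSpace K) (hx : mixedEmbedding.norm x ≠ 0) :
    ∑ v : InfinitePlace K, (mult v : ℝ) * dev K x v = 0 := by
  unfold dev
  simp_rw [mul_sub]
  rw [Finset.sum_sub_distrib, ← log_norm_eq K x hx, ← Finset.sum_mul, sum_mult_real]
  have h : (finrank ℚ K : ℝ) ≠ 0 := Nat.cast_ne_zero.mpr finrank_pos.ne'
  field_simp
  ring

lemma logMap_abs_le {x : mixedSpace K} (h : wt K x ≠ 0) (w : {w : InfinitePlace K // w ≠ w₀}) :
    |logMap x w| ≤ ∑ i, |ubasis K i w| := by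
  have h1 : logMap x w = ∑ i, uco K x i * ubasis K i w := by
    have h2 := (ubasis K).sum_repr (logMap x)
    have h3 := congrFun h2 w
    rw [← h3, Finset.sum_apply]
    rfl
  rw [h1]
  refine (Finset.abs_sum_le_sum_abs _ _).trans (Finset.sum_le_sum fun i _ => ?_)
  rw [abs_mul]
  exact mul_le_of_le_one_left (abs_nonneg _) (uco_lt_of_wt K h i).le

lemma exists_dev_bound : ∃ B : ℝ, 0 ≤ B ∧ ∀ x : mixedSpace K, wt K x ≠ 0 →
    ∀ v : InfinitePlace K, |dev K x v| ≤ B := by
  classical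
  refine ⟨∑ w : {w : InfinitePlace K // w ≠ w₀}, ∑ i, |ubasis K i w|,
    Finset.sum_nonneg fun w _ => Finset.sum_nonneg fun i _ => abs_nonneg _, ?_⟩
  intro x hx v
  have hn := norm_ne_zero_of_wt K hx
  have key : ∀ (w : InfinitePlace K) (B : ℝ), |(mult w : ℝ) * dev K x w| ≤ B → |dev K x w| ≤ B := by
    intro w B hB
    refine le_trans ?_ hB
    rw [abs_mul]
    refine le_mul_of_one_le_left (abs_nonneg _) ?_
    rw [abs_of_nonneg (by positivity)]
    exact one_le_mult
  apply key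
  have hlog : ∀ w : {w : InfinitePlace K // w ≠ w₀}, (mult w.1 : ℝ) * dev K x w.1 = logMap x w := by
    intro w
    rw [logMap_apply]
    rfl
  by_cases hv : v = w₀
  · have h0 := sum_mult_dev K x hn
    rw [Fintype.sum_eq_add_sum_subtype_ne _ (w₀ : InfinitePlace K)] at h0
    rw [hv, eq_neg_of_add_eq_zero_left h0, abs_neg]
    refine (Finset.abs_sum_le_sum_abs _ _).trans (Finset.sum_le_sum fun w _ => ?_)
    rw [hlog w]
    exact logMap_abs_le K hx w
  · have h1 := hlog ⟨v, hv⟩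
    rw [h1]
    refine (logMap_abs_le K hx ⟨v, hv⟩).trans ?_
    exact Finset.single_le_sum (f := fun w : {w : InfinitePlace K // w ≠ w₀} =>
      ∑ i, |ubasis K i w|) (fun w _ => Finset.sum_nonneg fun i _ => abs_nonneg _)
      (Finset.mem_univ _)

open scoped Classical

lemma normAtPlace_le_norm (x : mixedSpace K) (v : InfinitePlace K) : normAtPlace v x ≤ ‖x‖ := by
  rw [norm_eq_sup'_normAtPlace]
  exact Finset.le_sup' (fun w => normAtPlace w x) (Finset.mem_univ v)

lemma exists_norm_eq (x : mixedSpace K) : ∃ v : InfinitePlace K, ‖x‖ = normAtPlace v x := by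
  rw [norm_eq_sup'_normAtPlace]
  obtain ⟨v, -, hv⟩ := Finset.exists_mem_eq_sup' (Finset.univ_nonempty (α := InfinitePlace K))
    (fun w => normAtPlace w x)
  exact ⟨v, hv⟩

/-- on the support of the weight all absolute values are comparable -/
lemma exists_support_bound : ∃ A : ℝ, 0 < A ∧ A ≤ 1 ∧ ∀ x : mixedSpace K, wt K x ≠ 0 →
    0 < ‖x‖ ∧ (∀ v : InfinitePlace K, A * ‖x‖ ≤ normAtPlace v x) ∧
      (A * ‖x‖) ^ (finrank ℚ K) ≤ mixedEmbedding.norm x := by
  obtain ⟨B, hB, h⟩ := exists_dev_bound K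
  refine ⟨Real.exp (-(2 * B)), Real.exp_pos _, Real.exp_le_one_iff.mpr (by linarith), ?_⟩
  intro x hx
  have hn := norm_ne_zero_of_wt K hx
  have hv : ∀ v : InfinitePlace K, 0 < normAtPlace v x := fun v =>
    lt_of_le_of_ne (normAtPlace_nonneg v x) (mixedEmbedding.norm_ne_zero_iff.mp hn v).symm
  obtain ⟨v0, hv0⟩ := exists_norm_eq K x
  have hpos : 0 < ‖x‖ := hv0 ▸ hv v0
  have h2 : ∀ v : InfinitePlace K, Real.exp (-(2 * B)) * ‖x‖ ≤ normAtPlace v x := by
    intro v
    have a1 := abs_le.mp (h x hx v)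
    have a2 := abs_le.mp (h x hx v0)
    unfold dev at a1 a2
    have a3 : Real.log ‖x‖ - 2 * B ≤ Real.log (normAtPlace v x) := by
      rw [hv0]; linarith [a1.1, a2.2]
    rw [← Real.exp_log (hv v), ← Real.exp_log hpos, ← Real.exp_add]
    apply Real.exp_le_exp.mpr
    linarith
  refine ⟨hpos, h2, ?_⟩
  rw [mixedEmbedding.norm_apply, ← sum_mult_eq, ← Finset.prod_pow_eq_pow_sum]
  exact Finset.prod_le_prod (fun v _ => by positivity) (fun v _ =>
    pow_le_pow_left₀ (by positivity) (h2 v) _)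

/-- the weighted norm -/
noncomputable def FF (s : ℝ) (x : mixedSpace K) : ℝ :=
  wt K x * (mixedEmbedding.norm x) ^ (-s)

lemma FF_nonneg (s : ℝ) (x : mixedSpace K) : 0 ≤ FF K s x :=
  mul_nonneg (wt_nonneg K x) (Real.rpow_nonneg (mixedEmbedding.norm_nonneg _) _)

lemma FF_of_wt {s : ℝ} {x : mixedSpace K} (h : wt K x = 0) : FF K s x = 0 := by
  unfold FF
  rw [h, zero_mul]

lemma norm_rpow_le {A : ℝ} (hA : 0 < A) {x : mixedSpace K} (hx : 0 < ‖x‖)
    (h : (A * ‖x‖) ^ (finrank ℚ K) ≤ mixedEmbedding.norm x) {s : ℝ} (hs : 0 ≤ s) :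
    (mixedEmbedding.norm x) ^ (-s) ≤ (A * ‖x‖) ^ (-((finrank ℚ K : ℝ) * s)) := by
  have hpos : 0 < A * ‖x‖ := mul_pos hA hx
  calc (mixedEmbedding.norm x) ^ (-s) ≤ ((A * ‖x‖) ^ (finrank ℚ K)) ^ (-s) :=
        Real.rpow_le_rpow_of_nonpos (pow_pos hpos _) h (by linarith)
    _ = _ := by
        rw [← Real.rpow_natCast, ← Real.rpow_mul hpos.le]
        congr 1
        ring

lemma abs_one_sub_exp_le (t : ℝ) : |1 - Real.exp t| ≤ |t| * Real.exp |t| := by
  rcases le_total 0 t with h | h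
  · rw [abs_of_nonneg h, abs_of_nonpos (by linarith [Real.one_le_exp h])]
    have h1 := Real.add_one_le_exp (-t)
    have h2 : Real.exp t * Real.exp (-t) = 1 := by rw [← Real.exp_add]; simp
    nlinarith [Real.exp_pos t]
  · rw [abs_of_nonpos h, abs_of_nonneg (by linarith [Real.exp_le_one_iff.mpr h])]
    have h1 := Real.add_one_le_exp t
    have h2 : (1 : ℝ) ≤ Real.exp (-t) := Real.one_le_exp (by linarith)
    nlinarith

/-- two points close at all places -/
structure Near (δ : ℝ) (x x' : mixedSpace K) : Prop where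
  pos : ∀ v : InfinitePlace K, 0 < normAtPlace v x
  pos' : ∀ v : InfinitePlace K, 0 < normAtPlace v x'
  near : ∀ v : InfinitePlace K, |Real.log (normAtPlace v x) - Real.log (normAtPlace v x')| ≤ δ

variable {K}

lemma Near.ne {δ : ℝ} {x x' : mixedSpace K} (h : Near K δ x x') :
    mixedEmbedding.norm x ≠ 0 :=
  mixedEmbedding.norm_ne_zero_iff.mpr fun v => (h.pos v).ne'

lemma Near.ne' {δ : ℝ} {x x' : mixedSpace K} (h : Near K δ x x') :
    mixedEmbedding.norm x' ≠ 0 :=
  mixedEmbedding.norm_ne_zero_iff.mpr fun v => (h.pos' v).ne'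

lemma Near.log_norm {δ : ℝ} {x x' : mixedSpace K} (h : Near K δ x x') :
    |Real.log (mixedEmbedding.norm x) - Real.log (mixedEmbedding.norm x')|
      ≤ (finrank ℚ K : ℝ) * δ := by
  rw [log_norm_eq K x h.ne, log_norm_eq K x' h.ne', ← Finset.sum_sub_distrib, ← sum_mult_real,
    Finset.sum_mul]
  refine (Finset.abs_sum_le_sum_abs _ _).trans (Finset.sum_le_sum fun v _ => ?_)
  rw [← mul_sub, abs_mul, abs_of_nonneg (by positivity : (0 : ℝ) ≤ (mult v : ℝ))]
  exact mul_le_mul_of_nonneg_left (h.near v) (by positivity)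

omit [NumberField K] in
lemma mult_le_two (v : InfinitePlace K) : (mult v : ℝ) ≤ 2 := by
  unfold mult
  split
  · norm_num
  · norm_num

lemma Near.logMap {δ : ℝ} {x x' : mixedSpace K} (h : Near K δ x x')
    (w : {w : InfinitePlace K // w ≠ w₀}) :
    |logMap x w - logMap x' w| ≤ 4 * δ := by
  rw [logMap_apply, logMap_apply, ← mul_sub, abs_mul,
    abs_of_nonneg (by positivity : (0 : ℝ) ≤ (mult w.1 : ℝ))]
  have h1 := h.near w.1
  have h2 := h.log_norm
  have hn : (0 : ℝ) < finrank ℚ K := Nat.cast_pos.mpr finrank_pos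
  have h3 : |(Real.log (mixedEmbedding.norm x) - Real.log (mixedEmbedding.norm x'))
      * (finrank ℚ K : ℝ)⁻¹| ≤ δ := by
    rw [abs_mul, abs_of_nonneg (inv_nonneg.mpr hn.le)]
    calc _ ≤ ((finrank ℚ K : ℝ) * δ) * (finrank ℚ K : ℝ)⁻¹ :=
          mul_le_mul_of_nonneg_right h2 (inv_nonneg.mpr hn.le)
      _ = δ := by field_simp
  have h4 : |Real.log (normAtPlace w.1 x) - Real.log (mixedEmbedding.norm x) * (finrank ℚ K : ℝ)⁻¹
      - (Real.log (normAtPlace w.1 x')
        - Real.log (mixedEmbedding.norm x') * (finrank ℚ K : ℝ)⁻¹)| ≤ 2 * δ := by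
    have e : Real.log (normAtPlace w.1 x) - Real.log (mixedEmbedding.norm x) * (finrank ℚ K : ℝ)⁻¹
      - (Real.log (normAtPlace w.1 x')
        - Real.log (mixedEmbedding.norm x') * (finrank ℚ K : ℝ)⁻¹)
      = (Real.log (normAtPlace w.1 x) - Real.log (normAtPlace w.1 x'))
        - (Real.log (mixedEmbedding.norm x) - Real.log (mixedEmbedding.norm x'))
      * (finrank ℚ K : ℝ)⁻¹ := by ring
    rw [e]
    refine (abs_sub _ _).trans ?_
    linarith
  have hδ : 0 ≤ δ := (abs_nonneg _).trans h1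
  calc _ ≤ 2 * (2 * δ) := mul_le_mul (mult_le_two w.1) h4 (abs_nonneg _) (by norm_num)
    _ = 4 * δ := by ring

variable (K)

lemma exists_wt_lip : ∃ C : ℝ, 0 ≤ C ∧ ∀ (δ : ℝ) (x x' : mixedSpace K), Near K δ x x' →
    |wt K x - wt K x'| ≤ C * δ := by
  let D : Fin (rank K) → ℝ := fun i => ∑ w : {w : InfinitePlace K // w ≠ w₀},
    |(ubasis K).repr (fun j => if w = j then 1 else 0) i|
  refine ⟨∑ i, 4 * D i, Finset.sum_nonneg fun i _ => mul_nonneg (by norm_num)
    (Finset.sum_nonneg fun w _ => abs_nonneg _), ?_⟩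
  intro δ x x' h
  rw [wt_of_ne K h.ne, wt_of_ne K h.ne', Finset.sum_mul]
  refine (prod_sub_prod_le _ _ _ (fun i => ?_) (fun i => ?_)).trans
    (Finset.sum_le_sum fun i _ => ?_)
  · rw [abs_of_nonneg (tent_nonneg _)]; exact tent_le_one _
  · rw [abs_of_nonneg (tent_nonneg _)]; exact tent_le_one _
  refine (tent_lip _ _).trans ?_
  unfold uco
  have e1 : (ubasis K).repr (logMap x) i - (ubasis K).repr (logMap x') i
      = ((Finsupp.lapply i).comp (ubasis K).repr.toLinearMap) (logMap x - logMap x') := by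
    rw [map_sub]
    rfl
  rw [e1, LinearMap.pi_apply_eq_sum_univ]
  refine (Finset.abs_sum_le_sum_abs _ _).trans ?_
  have e2 : 4 * D i * δ = ∑ w : {w : InfinitePlace K // w ≠ w₀},
      4 * δ * |(ubasis K).repr (fun j => if w = j then 1 else 0) i| := by
    rw [← Finset.mul_sum]
    ring
  rw [e2]
  refine Finset.sum_le_sum fun w _ => ?_
  rw [smul_eq_mul, abs_mul]
  exact mul_le_mul_of_nonneg_right (h.logMap w) (abs_nonneg _)

lemma exists_FF_lip : ∃ C : ℝ, 0 ≤ C ∧ ∀ (δ : ℝ) (x x' : mixedSpace K) (s : ℝ), 0 ≤ s → s ≤ 2 →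
    δ ≤ 1 → Near K δ x x' →
    |FF K s x - FF K s x'| ≤ C * δ * (mixedEmbedding.norm x) ^ (-s) := by
  obtain ⟨C, hC, h⟩ := exists_wt_lip K
  have hn0 : (0 : ℝ) < finrank ℚ K := Nat.cast_pos.mpr finrank_pos
  refine ⟨C + 2 * (finrank ℚ K : ℝ) * Real.exp (2 * (finrank ℚ K : ℝ)), by positivity, ?_⟩
  intro δ x x' s hs0 hs hδ hN
  have hδ0 : 0 ≤ δ := by
    obtain ⟨v⟩ : Nonempty (InfinitePlace K) := inferInstance
    exact (abs_nonneg _).trans (hN.near v)
  have hpx : 0 < mixedEmbedding.norm x := lt_of_le_of_ne (mixedEmbedding.norm_nonneg _) hN.ne.symm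
  have hpx' : 0 < mixedEmbedding.norm x' :=
    lt_of_le_of_ne (mixedEmbedding.norm_nonneg _) hN.ne'.symm
  set t := s * (Real.log (mixedEmbedding.norm x) - Real.log (mixedEmbedding.norm x')) with ht
  have ht1 : |t| ≤ 2 * (finrank ℚ K : ℝ) * δ := by
    rw [ht, abs_mul, abs_of_nonneg hs0, mul_assoc]
    exact mul_le_mul hs hN.log_norm (abs_nonneg _) (by norm_num)
  have ht2 : |t| ≤ 2 * (finrank ℚ K : ℝ) := by
    refine ht1.trans ?_
    exact mul_le_of_le_one_right (by positivity) hδ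
  have e1 : (mixedEmbedding.norm x') ^ (-s) = (mixedEmbedding.norm x) ^ (-s) * Real.exp t := by
    rw [Real.rpow_def_of_pos hpx, Real.rpow_def_of_pos hpx', ← Real.exp_add]
    congr 1
    rw [ht]
    ring
  have e2 : FF K s x - FF K s x' = (wt K x - wt K x') * (mixedEmbedding.norm x) ^ (-s)
      + wt K x' * ((1 - Real.exp t) * (mixedEmbedding.norm x) ^ (-s)) := by
    unfold FF
    rw [e1]
    ring
  have hp : 0 ≤ (mixedEmbedding.norm x) ^ (-s) := Real.rpow_nonneg hpx.le _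
  rw [e2]
  refine (abs_add_le _ _).trans ?_
  rw [add_mul, add_mul]
  refine add_le_add ?_ ?_
  · rw [abs_mul, abs_of_nonneg hp]
    exact mul_le_mul_of_nonneg_right (h δ x x' hN) hp
  · rw [abs_mul, abs_mul, abs_of_nonneg hp, abs_of_nonneg (wt_nonneg K x')]
    have h3 : |1 - Real.exp t| ≤ 2 * (finrank ℚ K : ℝ) * Real.exp (2 * (finrank ℚ K : ℝ)) * δ := by
      refine (abs_one_sub_exp_le t).trans ?_
      calc |t| * Real.exp |t| ≤ (2 * (finrank ℚ K : ℝ) * δ) * Real.exp (2 * (finrank ℚ K : ℝ)) :=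
            mul_le_mul ht1 (Real.exp_le_exp.mpr ht2) (Real.exp_pos _).le (by positivity)
        _ = _ := by ring
    calc wt K x' * (|1 - Real.exp t| * (mixedEmbedding.norm x) ^ (-s))
        ≤ 1 * (|1 - Real.exp t| * (mixedEmbedding.norm x) ^ (-s)) :=
          mul_le_mul_of_nonneg_right (wt_le_one K x') (by positivity)
      _ ≤ _ := by
          rw [one_mul]
          exact mul_le_mul_of_nonneg_right h3 hp

end Pool.Agent.MP_058a58_ag.Ch
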