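import Mathlib
import Pool.Agent.Lib.MP_058a58_ag.Ch.Lip

/-!
# The weighted norm: differences, summability, continuity in `s`
-/

namespace Pool.Agent.MP_058a58_ag.Ch

open Finset NumberField NumberField.mixedEmbedding NumberField.Units NumberField.InfinitePlace
  NumberField.Units.dirichletUnitTheorem Module
open scoped Classical

variable (K : Type*) [Field K] [NumberField K]

lemma abs_log_sub_le {p q d : ℝ} (hp : 0 < p) (hq : 0 < q) (hpq : p / 2 ≤ q)
    (hd : |p - q| ≤ d) : |Real.log p - Real.log q| ≤ 2 * d / p := by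
  have h1 : Real.log p - Real.log q ≤ (p - q) / q := by
    rw [← Real.log_div hp.ne' hq.ne']
    have := Real.log_le_sub_one_of_pos (div_pos hp hq)
    refine this.trans (le_of_eq ?_)
    field_simp
  have h2 : Real.log q - Real.log p ≤ (q - p) / p := by
    rw [← Real.log_div hq.ne' hp.ne']
    have := Real.log_le_sub_one_of_pos (div_pos hq hp)
    refine this.trans (le_of_eq ?_)
    field_simp
  have hd0 : 0 ≤ d := (abs_nonneg _).trans hd
  have h3 : (p - q) / q ≤ 2 * d / p := by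
    rw [div_le_div_iff₀ hq hp]
    have := (abs_le.mp hd).2
    nlinarith
  have h4 : (q - p) / p ≤ 2 * d / p := by
    apply div_le_div_of_nonneg_right _ hp.le
    have := (abs_le.mp hd).1
    linarith
  rw [abs_le]
  constructor <;> linarith

lemma norm_rpow_le' {A : ℝ} (hA : 0 < A) (hA1 : A ≤ 1) {x : mixedSpace K} (hx : 0 < ‖x‖)
    (h : (A * ‖x‖) ^ (finrank ℚ K) ≤ mixedEmbedding.norm x) {s : ℝ} (hs : 0 ≤ s) (hs2 : s ≤ 2) :
    (mixedEmbedding.norm x) ^ (-s)
      ≤ A ^ (-((finrank ℚ K : ℝ) * 2)) * ‖x‖ ^ (-((finrank ℚ K : ℝ) * s)) := by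
  refine (norm_rpow_le K hA hx h hs).trans ?_
  rw [Real.mul_rpow hA.le hx.le]
  apply mul_le_mul_of_nonneg_right _ (Real.rpow_nonneg hx.le _)
  apply Real.rpow_le_rpow_of_exponent_ge hA hA1
  have hn0 : (0 : ℝ) < finrank ℚ K := Nat.cast_pos.mpr finrank_pos
  nlinarith

lemma exists_FF_le : ∃ C : ℝ, 0 ≤ C ∧ ∀ (x : mixedSpace K) (s : ℝ), 1 ≤ s → s ≤ 2 →
    FF K s x ≤ C * ‖x‖ ^ (-((finrank ℚ K : ℝ) * s)) := by
  obtain ⟨A, hA, hA1, h⟩ := exists_support_bound K
  refine ⟨A ^ (-((finrank ℚ K : ℝ) * 2)), Real.rpow_nonneg hA.le _, ?_⟩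
  intro x s hs hs2
  by_cases hx : wt K x = 0
  · rw [FF_of_wt K hx]
    positivity
  · obtain ⟨h1, -, h3⟩ := h x hx
    unfold FF
    calc wt K x * (mixedEmbedding.norm x) ^ (-s) ≤ 1 * (mixedEmbedding.norm x) ^ (-s) :=
          mul_le_mul_of_nonneg_right (wt_le_one K x)
            (Real.rpow_nonneg (mixedEmbedding.norm_nonneg _) _)
      _ ≤ _ := by
          rw [one_mul]
          exact norm_rpow_le' K hA hA1 h1 h3 (by linarith) hs2

lemma exists_diff_aux : ∃ C R : ℝ, 0 ≤ C ∧ 0 < R ∧ ∀ (h x : mixedSpace K) (s : ℝ), 1 ≤ s → s ≤ 2 →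
    1 ≤ ‖x‖ → R * ‖h‖ ≤ ‖x‖ → wt K x ≠ 0 →
    |FF K s (x + h) - FF K s x| ≤ C * ‖h‖ * ‖x‖ ^ (-((finrank ℚ K : ℝ) + 1)) := by
  obtain ⟨A, hA, hA1, hsup⟩ := exists_support_bound K
  obtain ⟨C, hC, hlip⟩ := exists_FF_lip K
  refine ⟨C * (2 / A) * A ^ (-((finrank ℚ K : ℝ) * 2)), 2 / A, ?_, by positivity, ?_⟩
  · have := Real.rpow_nonneg hA.le (-((finrank ℚ K : ℝ) * 2))
    positivity
  intro h x s hs hs2 hx1 hR hw
  obtain ⟨h1, h2, h3⟩ := hsup x hw
  have hn0 : (0 : ℝ) < finrank ℚ K := Nat.cast_pos.mpr finrank_pos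
  have hR' : 2 * ‖h‖ ≤ A * ‖x‖ := by
    have : 2 / A * ‖h‖ * A ≤ ‖x‖ * A := mul_le_mul_of_nonneg_right hR hA.le
    have e : 2 / A * ‖h‖ * A = 2 * ‖h‖ := by field_simp
    linarith [mul_comm ‖x‖ A]
  set δ := 2 * ‖h‖ / (A * ‖x‖) with hδ
  have hδ0 : 0 ≤ δ := by positivity
  have hδ1 : δ ≤ 1 := by
    rw [hδ, div_le_one (by positivity)]
    exact hR'
  have hnear : Near K δ x (x + h) := by
    have hp : ∀ v : InfinitePlace K, 0 < normAtPlace v x := fun v =>
      lt_of_lt_of_le (by positivity) (h2 v)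
    have hd : ∀ v : InfinitePlace K, |normAtPlace v x - normAtPlace v (x + h)| ≤ ‖h‖ := by
      intro v
      have a1 := normAtPlace_add_le v x h
      have a2 := normAtPlace_add_le v (x + h) (-h)
      rw [add_neg_cancel_right, normAtPlace_neg] at a2
      have a3 := normAtPlace_le_norm K h v
      rw [abs_le]
      constructor <;> linarith
    have hq : ∀ v : InfinitePlace K, normAtPlace v x / 2 ≤ normAtPlace v (x + h) := by
      intro v
      have a1 := (abs_le.mp (hd v)).2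
      have a2 := h2 v
      linarith
    refine ⟨hp, fun v => lt_of_lt_of_le (by have := hp v; positivity) (hq v), fun v => ?_⟩
    have hqp : 0 < normAtPlace v (x + h) := lt_of_lt_of_le (by have := hp v; positivity) (hq v)
    refine (abs_log_sub_le (hp v) hqp (hq v) (hd v)).trans ?_
    rw [hδ]
    exact div_le_div_of_nonneg_left (by positivity) (by positivity) (h2 v)
  have hmain := hlip δ x (x + h) s (by linarith) hs2 hδ1 hnear
  rw [abs_sub_comm]
  refine hmain.trans ?_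
  have hb := norm_rpow_le' K hA hA1 h1 h3 (by linarith : 0 ≤ s) hs2
  have hb2 : ‖x‖ ^ (-((finrank ℚ K : ℝ) * s)) ≤ ‖x‖ ^ (-(finrank ℚ K : ℝ)) := by
    apply Real.rpow_le_rpow_of_exponent_le hx1
    nlinarith
  have hA0 : 0 ≤ A ^ (-((finrank ℚ K : ℝ) * 2)) := Real.rpow_nonneg hA.le _
  have hx0 : 0 ≤ ‖x‖ ^ (-(finrank ℚ K : ℝ)) := Real.rpow_nonneg h1.le _
  calc C * δ * (mixedEmbedding.norm x) ^ (-s)
      ≤ C * δ * (A ^ (-((finrank ℚ K : ℝ) * 2)) * ‖x‖ ^ (-(finrank ℚ K : ℝ))) := by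
        apply mul_le_mul_of_nonneg_left _ (by positivity)
        exact hb.trans (mul_le_mul_of_nonneg_left hb2 hA0)
    _ = C * (2 / A) * A ^ (-((finrank ℚ K : ℝ) * 2)) * ‖h‖
          * (‖x‖ ^ (-(finrank ℚ K : ℝ)) * ‖x‖⁻¹) := by
        rw [hδ]
        field_simp
    _ = _ := by
        congr 1
        rw [← Real.rpow_neg_one ‖x‖, ← Real.rpow_add h1]
        congr 1
        ring

/-- **differences of the weighted norm** -/
theorem exists_diff : ∃ C R : ℝ, 0 ≤ C ∧ 0 ≤ R ∧ ∀ (h x : mixedSpace K) (s : ℝ), 1 ≤ s → s ≤ 2 →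
    2 + R * ‖h‖ ≤ ‖x‖ →
    |FF K s (x + h) - FF K s x| ≤ C * ‖h‖ * ‖x‖ ^ (-((finrank ℚ K : ℝ) + 1)) := by
  obtain ⟨C, R, hC, hR, H⟩ := exists_diff_aux K
  refine ⟨C * 2 ^ ((finrank ℚ K : ℝ) + 1), 2 * (R + 1), by positivity, by positivity, ?_⟩
  intro h x s hs hs2 hx
  have hh : 0 ≤ ‖h‖ := norm_nonneg h
  have hRh : 0 ≤ R * ‖h‖ := by positivity
  have hx0 : 0 < ‖x‖ := by nlinarith
  have hone : (1 : ℝ) ≤ 2 ^ ((finrank ℚ K : ℝ) + 1) :=
    Real.one_le_rpow (by norm_num) (by positivity)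
  by_cases hw : wt K x = 0
  · by_cases hw' : wt K (x + h) = 0
    · rw [FF_of_wt K hw, FF_of_wt K hw', sub_zero, abs_zero]
      positivity
    · have hge : ‖x‖ / 2 ≤ ‖x + h‖ := by
        have h1 : ‖x‖ ≤ ‖x + h‖ + ‖h‖ := by
          have := norm_sub_le (x + h) h
          rwa [add_sub_cancel_right] at this
        nlinarith
      have key := H (-h) (x + h) s hs hs2 (by nlinarith) (by rw [norm_neg]; nlinarith) hw'
      rw [add_neg_cancel_right, norm_neg, abs_sub_comm] at key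
      refine key.trans ?_
      have e1 : ‖x + h‖ ^ (-((finrank ℚ K : ℝ) + 1)) ≤ (‖x‖ / 2) ^ (-((finrank ℚ K : ℝ) + 1)) :=
        Real.rpow_le_rpow_of_nonpos (by positivity) hge (by
          have : (0 : ℝ) ≤ finrank ℚ K := Nat.cast_nonneg _
          linarith)
      have e2 : (‖x‖ / 2) ^ (-((finrank ℚ K : ℝ) + 1))
          = 2 ^ ((finrank ℚ K : ℝ) + 1) * ‖x‖ ^ (-((finrank ℚ K : ℝ) + 1)) := by
        rw [div_eq_mul_inv, Real.mul_rpow hx0.le (by norm_num), mul_comm]
        congr 1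
        rw [Real.inv_rpow (by norm_num), Real.rpow_neg (by norm_num), inv_inv]
      calc C * ‖h‖ * ‖x + h‖ ^ (-((finrank ℚ K : ℝ) + 1))
          ≤ C * ‖h‖ * (2 ^ ((finrank ℚ K : ℝ) + 1) * ‖x‖ ^ (-((finrank ℚ K : ℝ) + 1))) := by
            apply mul_le_mul_of_nonneg_left _ (by positivity)
            rw [← e2]
            exact e1
        _ = _ := by ring
  · refine (H h x s hs hs2 (by nlinarith) (by nlinarith) hw).trans ?_
    have hx1 : 0 ≤ ‖x‖ ^ (-((finrank ℚ K : ℝ) + 1)) := Real.rpow_nonneg hx0.le _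
    have : C * ‖h‖ * 1 ≤ C * ‖h‖ * 2 ^ ((finrank ℚ K : ℝ) + 1) :=
      mul_le_mul_of_nonneg_left hone (by positivity)
    nlinarith

lemma continuous_FF (x : mixedSpace K) : Continuous (fun s : ℝ => FF K s x) := by
  unfold FF
  by_cases h : mixedEmbedding.norm x = 0
  · have h1 : wt K x = 0 := by
      unfold wt
      rw [if_pos h]
    simp only [h1, zero_mul]
    exact continuous_const
  · have hpos : 0 < mixedEmbedding.norm x := lt_of_le_of_ne (mixedEmbedding.norm_nonneg _) (Ne.symm h)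
    exact continuous_const.mul (Continuous.rpow continuous_const continuous_neg
      fun s => Or.inl hpos.ne')

/-- the embedding of the ring of integers -/
noncomputable def io (a : 𝓞 K) : mixedSpace K := mixedEmbedding K (a : K)

omit [NumberField K] in
lemma io_add (a b : 𝓞 K) : io K (a + b) = io K a + io K b := by
  unfold io
  rw [← map_add]
  rfl

lemma io_injective : Function.Injective (io K) :=
  (mixedEmbedding_injective K).comp RingOfIntegers.coe_injective

omit [NumberField K] in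
lemma io_mem (a : 𝓞 K) : io K a ∈ mixedEmbedding.integerLattice K :=
  LinearMap.mem_range.mpr ⟨a, rfl⟩

/-- the embedding into the lattice -/
noncomputable def il (a : 𝓞 K) : mixedEmbedding.integerLattice K := ⟨io K a, io_mem K a⟩

lemma il_injective : Function.Injective (il K) := fun _ _ hab =>
  io_injective K (congrArg Subtype.val hab)

lemma finrank_lattice :
    (finrank ℤ (mixedEmbedding.integerLattice K) : ℝ) = (finrank ℚ K : ℝ) := by
  rw [ZLattice.rank ℝ, mixedEmbedding.finrank]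

lemma summable_lattice {r : ℝ} (hr : (finrank ℚ K : ℝ) < r) :
    Summable (fun z : mixedEmbedding.integerLattice K => ‖z‖ ^ (-r)) :=
  ZLattice.summable_norm_rpow (mixedEmbedding.integerLattice K) (-r)
    (by rw [finrank_lattice]; linarith)

lemma summable_io {r : ℝ} (hr : (finrank ℚ K : ℝ) < r) :
    Summable (fun a : 𝓞 K => ‖io K a‖ ^ (-r)) := by
  have h := (summable_lattice K hr).comp_injective (il_injective K)
  have e : (fun z : mixedEmbedding.integerLattice K => ‖z‖ ^ (-r)) ∘ il K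
      = fun a : 𝓞 K => ‖io K a‖ ^ (-r) := rfl
  rwa [e] at h

lemma summable_FF {s : ℝ} (hs : 1 < s) (hs2 : s ≤ 2) :
    Summable (fun a : 𝓞 K => FF K s (io K a)) := by
  obtain ⟨C, hC, h⟩ := exists_FF_le K
  have hn0 : (0 : ℝ) < finrank ℚ K := Nat.cast_pos.mpr finrank_pos
  exact Summable.of_nonneg_of_le (fun a => FF_nonneg K s _) (fun a => h (io K a) s hs.le hs2)
    ((summable_io K (by nlinarith : (finrank ℚ K : ℝ) < (finrank ℚ K : ℝ) * s)).mul_left C)

end Pool.Agent.MP_058a58_ag.Ch
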