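import Mathlib
import Pool.Agent.Lib.MP_058a58_ag.Ch.Diff
import Pool.Agent.Lib.MP_058a58_ag.Ch.Defs

/-!
# Existence of an admissible weight (the lattice part)
-/

namespace Pool.Agent.MP_058a58_ag.Ch

open Finset NumberField NumberField.mixedEmbedding NumberField.Units NumberField.InfinitePlace
  NumberField.Units.dirichletUnitTheorem Module Filter Topology
open scoped Classical

variable (K : Type*) [Field K] [NumberField K]

/-- the normalized weight on the ring of integers -/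
noncomputable def ww (x : 𝓞 K) : ℝ := wt K (io K x) / torsionOrder K

lemma torsionOrder_pos' : (0 : ℝ) < torsionOrder K := by
  exact_mod_cast torsionOrder_pos K

lemma one_le_torsionOrder : (1 : ℝ) ≤ torsionOrder K := by
  have h := torsionOrder_pos K
  exact_mod_cast h

lemma ww_nonneg (x : 𝓞 K) : 0 ≤ ww K x := div_nonneg (wt_nonneg K _) (torsionOrder_pos' K).le

lemma ww_le_one (x : 𝓞 K) : ww K x ≤ 1 := by
  unfold ww
  rw [div_le_one (torsionOrder_pos' K)]
  exact (wt_le_one K _).trans (one_le_torsionOrder K)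

lemma norm_io (x : 𝓞 K) : mixedEmbedding.norm (io K x) = |(Algebra.norm ℤ x : ℝ)| := by
  unfold io
  rw [norm_eq_norm, ← Algebra.coe_norm_int]
  push_cast
  rfl

lemma ww_zero : ww K 0 = 0 := by
  unfold ww wt
  rw [norm_io]
  simp

lemma Fs_eq (s : ℝ) (x : 𝓞 K) : Fs K (ww K) s x = FF K s (io K x) / torsionOrder K := by
  unfold Fs FF ww
  rw [norm_io]
  ring

lemma Fs_nonneg (s : ℝ) (x : 𝓞 K) : 0 ≤ Fs K (ww K) s x := by
  rw [Fs_eq]
  exact div_nonneg (FF_nonneg K s _) (torsionOrder_pos' K).le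

lemma one_le_abs_norm {x : 𝓞 K} (hx : x ≠ 0) : (1 : ℝ) ≤ |(Algebra.norm ℤ x : ℝ)| := by
  have h : (Algebra.norm ℤ x : ℤ) ≠ 0 := Algebra.norm_ne_zero_iff.mpr hx
  have := Int.one_le_abs h
  exact_mod_cast this

lemma Fs_zero (s : ℝ) : Fs K (ww K) s 0 = 0 := by
  unfold Fs
  rw [ww_zero, zero_mul]

lemma Fs_le_one {s : ℝ} (hs : 0 ≤ s) (x : 𝓞 K) : Fs K (ww K) s x ≤ 1 := by
  by_cases hx : x = 0
  · rw [hx, Fs_zero]
    exact zero_le_one
  · unfold Fs
    have h1 := Real.rpow_le_one_of_one_le_of_nonpos (one_le_abs_norm K hx) (by linarith : -s ≤ 0)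
    exact mul_le_one₀ (ww_le_one K x) (Real.rpow_nonneg (abs_nonneg _) _) h1

lemma Fs_summable {s : ℝ} (hs : 1 < s) : Summable (Fs K (ww K) s) := by
  have h2 : ∀ s : ℝ, 1 < s → s ≤ 2 → Summable (Fs K (ww K) s) := by
    intro s h1 h2
    have := (summable_FF K h1 h2).div_const (torsionOrder K : ℝ)
    refine this.congr fun x => ?_
    rw [Fs_eq]
  by_cases hs2 : s ≤ 2
  · exact h2 s hs hs2
  · refine Summable.of_nonneg_of_le (Fs_nonneg K s) (fun x => ?_) (h2 2 (by norm_num) le_rfl)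
    by_cases hx : x = 0
    · rw [hx, Fs_zero, Fs_zero]
    · unfold Fs
      apply mul_le_mul_of_nonneg_left _ (ww_nonneg K x)
      exact Real.rpow_le_rpow_of_exponent_le (one_le_abs_norm K hx) (by linarith)

lemma io_unit_mul (u : (𝓞 K)ˣ) (x : 𝓞 K) : io K (u * x) = u • io K x := by
  unfold io
  rw [unitSMul_smul, ← map_mul]
  rfl

lemma hasSum_ww {x : 𝓞 K} (hx : x ≠ 0) : HasSum (fun u : (𝓞 K)ˣ => ww K (u * x)) 1 := by
  have h0 : mixedEmbedding.norm (io K x) ≠ 0 := by
    rw [norm_io]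
    have := one_le_abs_norm K hx
    linarith
  have h1 := (hasSum_wt K (io K x) h0).div_const (torsionOrder K : ℝ)
  rw [div_self (torsionOrder_pos' K).ne'] at h1
  have e : (fun u : (𝓞 K)ˣ => ww K (u * x))
      = fun u : (𝓞 K)ˣ => wt K (u • io K x) / torsionOrder K := by
    funext u
    unfold ww
    rw [io_unit_mul]
  rw [e]
  exact h1

lemma continuous_Fs (x : 𝓞 K) : Continuous (fun s : ℝ => Fs K (ww K) s x) := by
  have e : (fun s : ℝ => Fs K (ww K) s x) = fun s => FF K s (io K x) / torsionOrder K :=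
    funext fun s => Fs_eq K s x
  rw [e]
  exact (continuous_FF K (io K x)).div_const _

/-- differences on the ring of integers: a summable bound -/
lemma exists_bound (γ : 𝓞 K) : ∃ B : 𝓞 K → ℝ, Summable B ∧ ∀ (s : ℝ), 1 ≤ s → s ≤ 2 →
    ∀ x, |Fs K (ww K) s (x + γ) - Fs K (ww K) s x| ≤ B x := by
  obtain ⟨C, R, hC, hR, H⟩ := exists_diff K
  set n : ℝ := (finrank ℚ K : ℝ) with hn
  have hn0 : (0 : ℝ) < n := Nat.cast_pos.mpr finrank_pos
  set R' : ℝ := 2 + R * ‖io K γ‖ with hR'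
  have hR'0 : 0 < R' := by positivity
  have hsum : Summable (fun x : 𝓞 K => ‖io K x‖ ^ (-(n + 1))) :=
    summable_io K (by linarith : (finrank ℚ K : ℝ) < n + 1)
  refine ⟨fun x => (R' ^ (n + 1) + C * ‖io K γ‖) * ‖io K x‖ ^ (-(n + 1))
    + if x = 0 then 1 else 0, ?_, ?_⟩
  · refine (hsum.mul_left _).add ?_
    exact summable_of_finite_support ((Set.finite_singleton (0 : 𝓞 K)).subset (by
      intro x hx
      rw [Function.mem_support] at hx
      by_contra hc
      exact hx (if_neg hc)))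
  · intro s hs hs2 x
    have hle1 : |Fs K (ww K) s (x + γ) - Fs K (ww K) s x| ≤ 1 := by
      have a1 := Fs_nonneg K s (x + γ)
      have a2 := Fs_nonneg K s x
      have a3 := Fs_le_one K (by linarith : 0 ≤ s) (x + γ)
      have a4 := Fs_le_one K (by linarith : 0 ≤ s) x
      rw [abs_le]
      constructor <;> linarith
    have hpos : 0 ≤ ‖io K x‖ ^ (-(n + 1)) := Real.rpow_nonneg (norm_nonneg _) _
    have hγ : 0 ≤ C * ‖io K γ‖ := by positivity
    have hRp : 0 ≤ R' ^ (n + 1) := Real.rpow_nonneg hR'0.le _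
    dsimp only
    by_cases hx : x = 0
    · rw [if_pos hx]
      have : 0 ≤ (R' ^ (n + 1) + C * ‖io K γ‖) * ‖io K x‖ ^ (-(n + 1)) := by positivity
      linarith
    · rw [if_neg hx, add_zero]
      have hxpos : 0 < ‖io K x‖ := by
        rw [norm_pos_iff]
        intro h0
        apply hx
        apply io_injective K
        rw [h0]
        unfold io
        simp
      by_cases hlt : R' ≤ ‖io K x‖
      · have h1 := H (io K γ) (io K x) s hs hs2 hlt
        rw [Fs_eq, Fs_eq, ← sub_div, abs_div, abs_of_pos (torsionOrder_pos' K), io_add]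
        refine (div_le_self (abs_nonneg _) (one_le_torsionOrder K)).trans (h1.trans ?_)
        rw [add_mul]
        have : 0 ≤ R' ^ (n + 1) * ‖io K x‖ ^ (-(n + 1)) := by positivity
        linarith
      · push Not at hlt
        refine hle1.trans ?_
        have h1 : 1 ≤ R' ^ (n + 1) * ‖io K x‖ ^ (-(n + 1)) := by
          rw [Real.rpow_neg hxpos.le, ← div_eq_mul_inv, ← Real.div_rpow hR'0.le hxpos.le]
          apply Real.one_le_rpow _ (by linarith)
          rw [one_le_div hxpos]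
          exact hlt.le
        have h2 : 0 ≤ C * ‖io K γ‖ * ‖io K x‖ ^ (-(n + 1)) := by positivity
        rw [add_mul]
        linarith

/-- **the dominated convergence argument** -/
theorem can_ww (g : 𝓞 K → ℂ) (M : ℝ) (hg : ∀ x, ‖g x‖ ≤ M) (N : ℕ) (γ : Fin N → 𝓞 K)
    (hN : 1 ≤ N) (h0 : ∀ b : 𝓞 K, ∑ j, g (b + γ j) = 0) :
    ∃ l : ℂ, Tendsto (fun s : ℝ => ∑' x : 𝓞 K, g x * (Fs K (ww K) s x : ℂ)) (𝓝[>] 1) (𝓝 l) := by
  choose B hB hB2 using fun j => exists_bound K (γ j)
  have hM : 0 ≤ M := (norm_nonneg _).trans (hg 0)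
  let D : ℝ → 𝓞 K → ℂ := fun s x =>
    ∑ j, g (x + γ j) * ((Fs K (ww K) s (x + γ j) - Fs K (ww K) s x : ℝ) : ℂ)
  have hlim : Tendsto (fun s : ℝ => ∑' x, D s x) (𝓝[>] 1) (𝓝 (∑' x, D 1 x)) := by
    refine tendsto_tsum_of_dominated_convergence (bound := fun x => ∑ j, M * B j x)
      (summable_sum fun j _ => (hB j).mul_left M) ?_ ?_
    · intro x
      have hc : Continuous (fun s : ℝ => D s x) :=
        continuous_finsetSum _ fun j _ => continuous_const.mul
          (Complex.continuous_ofReal.comp ((continuous_Fs K _).sub (continuous_Fs K _)))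
      exact (hc.tendsto 1).mono_left nhdsWithin_le_nhds
    · have hev : ∀ᶠ s : ℝ in 𝓝[>] 1, s ∈ Set.Ioo (1 : ℝ) 2 :=
        Ioo_mem_nhdsGT (by norm_num)
      filter_upwards [hev] with s hs x
      refine (norm_sum_le _ _).trans (Finset.sum_le_sum fun j _ => ?_)
      rw [norm_mul, Complex.norm_real, Real.norm_eq_abs]
      exact mul_le_mul (hg _) (hB2 j s hs.1.le hs.2.le x) (abs_nonneg _) hM
  refine ⟨(N : ℂ)⁻¹ * ∑' x, D 1 x, ?_⟩
  refine Tendsto.congr' ?_ (hlim.const_mul ((N : ℂ)⁻¹))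
  have hev : ∀ᶠ s : ℝ in 𝓝[>] 1, s ∈ Set.Ioi (1 : ℝ) := self_mem_nhdsWithin
  filter_upwards [hev] with s hs
  have hs1 : 1 < s := hs
  have hsumF : Summable (fun x : 𝓞 K => g x * (Fs K (ww K) s x : ℂ)) := by
    refine Summable.of_norm_bounded ((Fs_summable K hs1).mul_left M) fun x => ?_
    rw [norm_mul, Complex.norm_real, Real.norm_eq_abs, abs_of_nonneg (Fs_nonneg K s x)]
    exact mul_le_mul_of_nonneg_right (hg x) (Fs_nonneg K s x)
  have hshift : ∀ j, Summable (fun x : 𝓞 K => g (x + γ j) * (Fs K (ww K) s (x + γ j) : ℂ)) :=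
    fun j => (Equiv.addRight (γ j)).summable_iff.mpr hsumF
  have hshift2 : ∀ j, ∑' x : 𝓞 K, g (x + γ j) * (Fs K (ww K) s (x + γ j) : ℂ)
      = ∑' x : 𝓞 K, g x * (Fs K (ww K) s x : ℂ) :=
    fun j => (Equiv.addRight (γ j)).tsum_eq (fun x : 𝓞 K => g x * (Fs K (ww K) s x : ℂ))
  have e1 : ∀ x, D s x = ∑ j, g (x + γ j) * (Fs K (ww K) s (x + γ j) : ℂ) := by
    intro x
    have : ∑ j, g (x + γ j) * (Fs K (ww K) s x : ℂ) = 0 := by
      rw [← Finset.sum_mul, h0 x, zero_mul]
    simp only [D]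
    rw [← sub_eq_zero, ← Finset.sum_sub_distrib, ← neg_eq_zero, ← this, ← Finset.sum_neg_distrib]
    refine Finset.sum_congr rfl fun j _ => ?_
    push_cast
    ring
  rw [tsum_congr e1, Summable.tsum_finsetSum (fun j _ => hshift j),
    Finset.sum_congr rfl (fun j _ => hshift2 j), Finset.sum_const, Finset.card_univ,
    Fintype.card_fin, nsmul_eq_mul, ← mul_assoc, inv_mul_cancel₀, one_mul]
  exact Nat.cast_ne_zero.mpr (by omega)

/-- **an admissible weight exists** -/
theorem exists_WOK (K : Type*) [Field K] [NumberField K] : ∃ w : 𝓞 K → ℝ, WOK K w :=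
  ⟨ww K, ww_nonneg K, ww_zero K, fun _ hx => hasSum_ww K hx, fun _ hs => Fs_summable K hs,
    fun g M hg N γ hN h0 => can_ww K g M hg N γ hN h0⟩

theorem CH1 : S_CH1 := fun K _ _ => exists_WOK K

end Pool.Agent.MP_058a58_ag.Ch
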