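import Pool.Agent.Lib.MP_058a58_ag.Ch.UDefs

set_option autoImplicit false

/-!
# Weighted sums of periodic functions on the ring of integers
-/

namespace Pool.Agent.Lib.MP_058a58_ag.Ch

open NumberField Filter Topology

variable {K : Type*} [Field K] [NumberField K]

/-- The residue classes modulo `k`. -/
abbrev Rk (K : Type*) [Field K] [NumberField K] (k : ℕ) : Type _ :=
  𝓞 K ⧸ Ideal.span {(k : 𝓞 K)}

lemma finite_Rk {k : ℕ} (hk : 1 ≤ k) : Finite (Rk K k) := by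
  refine Ideal.finiteQuotientOfFreeOfNeBot _ ?_
  rw [Ne, Ideal.span_singleton_eq_bot]
  exact_mod_cast (by omega : k ≠ 0)

/-- The decomposition into residue classes. -/
noncomputable def cosEquiv {k : ℕ} (hk : 1 ≤ k) : Rk K k × 𝓞 K ≃ 𝓞 K :=
  Equiv.ofBijective (fun p => p.1.out + k * p.2) (by
    have hk0 : (k : 𝓞 K) ≠ 0 := by exact_mod_cast (by omega : k ≠ 0)
    constructor
    · rintro ⟨a, x⟩ ⟨b, y⟩ h
      have h' : a.out + k * x = b.out + k * y := h
      have hab : a = b := by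
        rw [← Ideal.Quotient.mk_out a, ← Ideal.Quotient.mk_out b, Ideal.Quotient.eq,
          Ideal.mem_span_singleton]
        exact ⟨y - x, by linear_combination h'⟩
      subst hab
      have h2 : (k : 𝓞 K) * x = k * y := add_left_cancel h'
      rw [mul_left_cancel₀ hk0 h2]
    · intro y
      have h : y - (Ideal.Quotient.mk (Ideal.span {(k : 𝓞 K)}) y).out ∈
          Ideal.span {(k : 𝓞 K)} := by
        rw [← Ideal.Quotient.eq, Ideal.Quotient.mk_out]
      rw [Ideal.mem_span_singleton] at h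
      obtain ⟨z, hz⟩ := h
      exact ⟨(Ideal.Quotient.mk _ y, z), by
        show (Ideal.Quotient.mk _ y).out + k * z = y
        rw [← hz]
        ring⟩)

lemma cosEquiv_apply {k : ℕ} (hk : 1 ≤ k) (p : Rk K k × 𝓞 K) :
    cosEquiv hk p = p.1.out + k * p.2 := rfl

open Classical in
/-- The mean value. -/
noncomputable def kap (K : Type*) [Field K] [NumberField K] (k : ℕ) (ψ : 𝓞 K → ℂ) : ℂ :=
  ((k : ℂ) ^ (-(Module.finrank ℚ K : ℤ))) * ∑ᶠ a : Rk K k, ψ a.out

/-- The sums of periodic functions. -/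
theorem coset_lim {w : 𝓞 K → ℝ} (hw : WOK K w) {k : ℕ} (hk : 1 ≤ k) (ψ : 𝓞 K → ℂ)
    (hper : ∀ x y : 𝓞 K, ψ (x + k * y) = ψ x) :
    ∃ l : ℂ, Tendsto (fun s : ℝ => ∑' x : 𝓞 K, ψ x * ((Fs K w s x : ℝ) : ℂ) -
      kap K k ψ * ((Tw K w s : ℝ) : ℂ)) (𝓝[>] 1) (𝓝 l) := by
  classical
  have hfin := finite_Rk (K := K) hk
  have : Fintype (Rk K k) := Fintype.ofFinite _
  choose l hl using fun a : Rk K k => hw.lim k a.out hk
  refine ⟨∑ a : Rk K k, ψ a.out * ((l a : ℝ) : ℂ), ?_⟩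
  have h1 : Tendsto (fun s : ℝ => ∑ a : Rk K k, ψ a.out * (((∑' x : 𝓞 K, Fs K w s (a.out + k * x) -
      (k : ℝ) ^ (-(Module.finrank ℚ K : ℤ)) * Tw K w s : ℝ)) : ℂ)) (𝓝[>] 1)
      (𝓝 (∑ a : Rk K k, ψ a.out * ((l a : ℝ) : ℂ))) :=
    tendsto_finsetSum _ fun a _ =>
      tendsto_const_nhds.mul ((Complex.continuous_ofReal.tendsto _).comp (hl a))
  refine h1.congr' ?_
  filter_upwards [self_mem_nhdsWithin] with s hs
  have hsum := hw.summ s hs
  have hsumC : ∀ a : Rk K k, Summable fun x : 𝓞 K => Fs K w s (a.out + k * x) := by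
    intro a
    have h2 := ((cosEquiv (K := K) hk).summable_iff (f := Fs K w s)).2 hsum
    have h3 := h2.prod_factor a
    exact h3
  have hbd : ∃ B : ℝ, ∀ x : 𝓞 K, ‖ψ x‖ ≤ B := by
    refine ⟨∑ a : Rk K k, ‖ψ a.out‖, fun x => ?_⟩
    obtain ⟨⟨a, y⟩, rfl⟩ := (cosEquiv (K := K) hk).surjective x
    rw [cosEquiv_apply, hper]
    exact Finset.single_le_sum (f := fun a : Rk K k => ‖ψ a.out‖) (fun _ _ => norm_nonneg _)
      (Finset.mem_univ a)
  obtain ⟨B, hB⟩ := hbd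
  have hsumψ : Summable fun x : 𝓞 K => ψ x * ((Fs K w s x : ℝ) : ℂ) := by
    refine Summable.of_norm (Summable.of_nonneg_of_le (fun _ => norm_nonneg _) (fun x => ?_)
      (hsum.norm.mul_left B))
    rw [norm_mul, Complex.norm_real]
    exact mul_le_mul_of_nonneg_right (hB x) (norm_nonneg _)
  have h4 : ∑' x : 𝓞 K, ψ x * ((Fs K w s x : ℝ) : ℂ) =
      ∑ a : Rk K k, ψ a.out * ((∑' x : 𝓞 K, Fs K w s (a.out + k * x) : ℝ) : ℂ) := by
    rw [← (cosEquiv (K := K) hk).tsum_eq]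
    have h5 := ((cosEquiv (K := K) hk).summable_iff
      (f := fun x : 𝓞 K => ψ x * ((Fs K w s x : ℝ) : ℂ))).2 hsumψ
    have h6 := h5.tsum_prod
    rw [show (fun p : Rk K k × 𝓞 K => ψ (cosEquiv hk p) * ((Fs K w s (cosEquiv hk p) : ℝ) : ℂ)) =
      (fun x : 𝓞 K => ψ x * ((Fs K w s x : ℝ) : ℂ)) ∘ cosEquiv hk from rfl, h6, tsum_fintype]
    refine Finset.sum_congr rfl fun a _ => ?_
    rw [Complex.ofReal_tsum, ← tsum_mul_left]
    refine tsum_congr fun x => ?_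
    show ψ (a.out + k * x) * ((Fs K w s (a.out + k * x) : ℝ) : ℂ) = _
    rw [hper]
  rw [h4]
  unfold kap
  rw [finsum_eq_sum_of_fintype]
  simp only [Complex.ofReal_sub, Complex.ofReal_mul, mul_sub, Finset.sum_sub_distrib]
  congr 1
  rw [mul_assoc, mul_comm (∑ a : Rk K k, ψ a.out), Finset.mul_sum, Finset.mul_sum]
  refine Finset.sum_congr rfl fun a _ => ?_
  push_cast
  ring

end Pool.Agent.Lib.MP_058a58_ag.Ch
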