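import Pool.Agent.Lib.MP_058a58_ag.Ch.Defs
import Pool.Agent.Lib.MP_058a58_ag.Ch.Coset

set_option autoImplicit false

/-!
# The two forms of the properties of the weight
-/

namespace Pool.Agent.Lib.MP_058a58_ag.Ch

open NumberField Filter Topology

variable {K : Type*} [Field K] [NumberField K]

lemma index_Rk (k : ℕ) : Nat.card (Rk K k) = k ^ (Module.finrank ℚ K) := by
  have h1 : Nat.card (Rk K k) = Ideal.absNorm (Ideal.span {(k : 𝓞 K)}) := rfl
  rw [h1, Ideal.absNorm_span_singleton]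
  have h2 : Algebra.norm ℤ (k : 𝓞 K) = (k : ℤ) ^ (Module.finrank ℤ (𝓞 K)) := by
    have := Algebra.norm_algebraMap_of_basis (Module.Free.chooseBasis ℤ (𝓞 K)) (k : ℤ)
    rw [Module.finrank_eq_card_chooseBasisIndex, ← this]
    simp
  rw [h2, Int.natAbs_pow, Int.natAbs_natCast, RingOfIntegers.rank]

theorem WOK.of_can {w : 𝓞 K → ℝ} (hw : Pool.Agent.MP_058a58_ag.Ch.WOK K w) : WOK K w := by
  classical
  refine ⟨hw.nonneg, hw.unit, hw.summ, ?_⟩
  intro k b hk
  have hfin := finite_Rk (K := K) hk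
  have hft : Fintype (Rk K k) := Fintype.ofFinite _
  set n := Module.finrank ℚ K with hn
  have hkr : (0 : ℝ) < k := by exact_mod_cast hk
  have hkn : (0 : ℝ) < (k : ℝ) ^ n := by positivity
  set g : 𝓞 K → ℂ := fun x => (if (Ideal.Quotient.mk (Ideal.span {(k : 𝓞 K)}) x) =
    Ideal.Quotient.mk (Ideal.span {(k : 𝓞 K)}) b then 1 else 0) - (((k : ℝ) ^ n)⁻¹ : ℝ) with hg
  set N := Fintype.card (Rk K k) with hN
  have hNk : N = k ^ n := by
    rw [hN, ← Nat.card_eq_fintype_card, index_Rk]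
  have hN1 : 1 ≤ N := by
    rw [hNk]
    exact Nat.one_le_pow _ _ hk
  set e : Fin N ≃ Rk K k := (Fintype.equivFin (Rk K k)).symm with he
  obtain ⟨l, hl⟩ := hw.can g 2 (fun x => by
      simp only [hg]
      refine (norm_sub_le _ _).trans ?_
      have h1 : ‖(if (Ideal.Quotient.mk (Ideal.span {(k : 𝓞 K)}) x) =
          Ideal.Quotient.mk (Ideal.span {(k : 𝓞 K)}) b then (1 : ℂ) else 0)‖ ≤ 1 := by
        split_ifs <;> simp
      have h2 : ‖((((k : ℝ) ^ n)⁻¹ : ℝ) : ℂ)‖ ≤ 1 := by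
        rw [Complex.norm_real, Real.norm_of_nonneg (by positivity)]
        apply inv_le_one_of_one_le₀
        exact one_le_pow₀ (by exact_mod_cast hk)
      linarith) N (fun j => (e j).out) hN1 (fun x => by
      simp only [hg]
      rw [Finset.sum_sub_distrib, Finset.sum_const, Finset.card_univ, Fintype.card_fin]
      have h1 : ∑ j : Fin N, (if (Ideal.Quotient.mk (Ideal.span {(k : 𝓞 K)}) (x + (e j).out)) =
          Ideal.Quotient.mk (Ideal.span {(k : 𝓞 K)}) b then (1 : ℂ) else 0) = 1 := by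
        have h2 : ∀ j : Fin N, ((Ideal.Quotient.mk (Ideal.span {(k : 𝓞 K)}) (x + (e j).out)) =
            Ideal.Quotient.mk (Ideal.span {(k : 𝓞 K)}) b) ↔
            j = e.symm (Ideal.Quotient.mk (Ideal.span {(k : 𝓞 K)}) (b - x)) := by
          intro j
          rw [Equiv.eq_symm_apply, map_add, map_sub, Ideal.Quotient.mk_out, eq_sub_iff_add_eq,
            add_comm]
        simp only [h2]
        rw [Finset.sum_ite_eq']
        simp
      have h6 : ((k : ℂ) ^ n) ≠ 0 := by
        have : (k : ℂ) ≠ 0 := by exact_mod_cast (by omega : k ≠ 0)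
        exact pow_ne_zero n this
      rw [h1, hNk, nsmul_eq_mul, Complex.ofReal_inv, Complex.ofReal_pow, Complex.ofReal_natCast,
        Nat.cast_pow, mul_inv_cancel₀ h6, sub_self])
  refine ⟨l.re, ?_⟩
  refine ((Complex.continuous_re.tendsto _).comp hl).congr' ?_
  filter_upwards [self_mem_nhdsWithin] with s hs
  have hsum := hw.summ s hs
  show (∑' x : 𝓞 K, g x * ((Pool.Agent.MP_058a58_ag.Ch.Fs K w s x : ℝ) : ℂ)).re = _
  have hFs : ∀ x, Pool.Agent.MP_058a58_ag.Ch.Fs K w s x = Fs K w s x := fun _ => rfl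
  have hsum' : Summable (Fs K w s) := hsum
  -- the indicator sum
  have h3 : ∀ x : 𝓞 K, g x * ((Pool.Agent.MP_058a58_ag.Ch.Fs K w s x : ℝ) : ℂ) =
      (((if (Ideal.Quotient.mk (Ideal.span {(k : 𝓞 K)}) x) =
        Ideal.Quotient.mk (Ideal.span {(k : 𝓞 K)}) b then Fs K w s x else 0) -
        ((k : ℝ) ^ n)⁻¹ * Fs K w s x : ℝ) : ℂ) := by
    intro x
    rw [hFs]
    simp only [hg]
    split_ifs
    · push_cast; ring
    · push_cast; ring
  rw [tsum_congr h3, ← Complex.ofReal_tsum, Complex.ofReal_re]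
  have h4 : Summable fun x : 𝓞 K => if (Ideal.Quotient.mk (Ideal.span {(k : 𝓞 K)}) x) =
        Ideal.Quotient.mk (Ideal.span {(k : 𝓞 K)}) b then Fs K w s x else 0 := by
    refine Summable.of_norm (Summable.of_nonneg_of_le (fun _ => norm_nonneg _) (fun x => ?_)
      hsum'.norm)
    split_ifs
    · exact le_rfl
    · rw [norm_zero]; exact norm_nonneg _
  rw [h4.tsum_sub (hsum'.mul_left _), tsum_mul_left, ← zpow_natCast, ← zpow_neg]
  congr 1
  have hk0 : (k : 𝓞 K) ≠ 0 := by exact_mod_cast (by omega : k ≠ 0)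
  have hinj : Function.Injective fun x : 𝓞 K => b + k * x := by
    intro x y h
    exact mul_left_cancel₀ hk0 (add_left_cancel h)
  rw [← hinj.tsum_eq]
  · refine tsum_congr fun x => ?_
    rw [if_pos]
    rw [Ideal.Quotient.eq, Ideal.mem_span_singleton]
    exact ⟨x, by ring⟩
  · intro x hx
    have h5 : (Ideal.Quotient.mk (Ideal.span {(k : 𝓞 K)}) x) =
        Ideal.Quotient.mk (Ideal.span {(k : 𝓞 K)}) b := by
      by_contra hcon
      exact hx (if_neg hcon)
    rw [Ideal.Quotient.eq, Ideal.mem_span_singleton] at h5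
    obtain ⟨z, hz⟩ := h5
    exact ⟨z, by
      show b + k * z = x
      rw [← hz]
      ring⟩

end Pool.Agent.Lib.MP_058a58_ag.Ch
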