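import Pool.Agent.Lib.MP_058a58_ag.Ch.EulerC

set_option autoImplicit false

/-!
# The logarithm of the twisted zeta function
-/

namespace Pool.Agent.Lib.MP_058a58_ag.Ch

open NumberField Filter Topology nonZeroDivisors TatePole.Ded

variable {K : Type*} [Field K] [NumberField K]

open Classical in
lemma tendsto_LS {c : ℕ → ℂ} (h1 : c 1 = 1) (hc : ∀ n, ‖c n‖ ≤ 1) {s : ℝ} (hs : 1 < s) :
    Tendsto (fun N => LS c s (TT K N)) atTop (𝓝 1) := by
  have hlim : ∑' I : (Ideal (𝓞 K))⁰, (if I = 1 then (1 : ℂ) else 0) = 1 := by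
    rw [tsum_ite_eq]
  rw [← hlim]
  unfold LS
  refine tendsto_tsum_of_dominated_convergence (summable_gI (K := K) hc hs) ?_ ?_
  · intro I
    by_cases hI : I = 1
    · subst hI
      rw [if_pos rfl]
      refine tendsto_const_nhds.congr fun N => ?_
      rw [if_pos]
      · show (1 : ℂ) = gI K c s (1 : Ideal (𝓞 K))
        unfold gI
        rw [Ideal.one_eq_top, Ideal.absNorm_top, h1, Nat.cast_one, Real.one_rpow]
        simp
      · intro P hP hd
        have hP' := ((mem_TT K).1 hP).2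
        apply hP'.ne_top
        rw [← Ideal.one_eq_top]
        have h2 : P ∣ (1 : Ideal (𝓞 K)) := hd
        rw [Ideal.one_eq_top] at h2 ⊢
        exact top_le_iff.1 (Ideal.le_of_dvd h2)
    · rw [if_neg hI]
      have hne : (I : Ideal (𝓞 K)) ≠ ⊤ := by
        intro h
        apply hI
        apply Subtype.ext
        rw [h, ← Ideal.one_eq_top]
        rfl
      obtain ⟨P, hPm, hle⟩ := Ideal.exists_le_maximal _ hne
      have hP0 : P ≠ ⊥ := by
        rintro rfl
        exact nonZeroDivisors.ne_zero I.2 (le_bot_iff.1 hle)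
      refine tendsto_const_nhds.congr' ?_
      filter_upwards [eventually_ge_atTop (Ideal.absNorm P)] with N hN
      rw [if_neg]
      intro h
      exact h P ((mem_TT K).2 ⟨⟨hN, hP0⟩, hPm.isPrime⟩) (Ideal.dvd_iff_le.2 hle)
  · refine Filter.Eventually.of_forall fun N I => ?_
    split_ifs
    · exact le_rfl
    · rw [norm_zero]; exact norm_nonneg _

lemma gI_norm_le_half {c : ℕ → ℂ} (hc : ∀ n, ‖c n‖ ≤ 1) {s : ℝ} (hs : 1 ≤ s) {N : ℕ}
    {P : Ideal (𝓞 K)} (hP : P ∈ TT K N) : ‖gI K c s P‖ ≤ 1 / 2 := by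
  refine (gI_norm_le hc s P).trans ?_
  have h1 := (mem_TT K).1 hP
  have h2 : 2 ≤ Ideal.absNorm P := by
    have h3 : Ideal.absNorm P ≠ 0 := fun h => h1.1.2 (Ideal.absNorm_eq_zero_iff.1 h)
    have h4 : Ideal.absNorm P ≠ 1 := fun h => h1.2.ne_top (Ideal.absNorm_eq_one_iff.1 h)
    omega
  have h2' : (2 : ℝ) ≤ (Ideal.absNorm P : ℝ) := by exact_mod_cast h2
  have h3 : (Ideal.absNorm P : ℝ) ^ (-s) ≤ (Ideal.absNorm P : ℝ) ^ (-1 : ℝ) :=
    Real.rpow_le_rpow_of_exponent_le (by linarith) (by linarith)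
  refine h3.trans ?_
  rw [Real.rpow_neg_one, one_div]
  exact inv_anti₀ (by norm_num) h2'

lemma log_one_sub {z : ℂ} (hz : ‖z‖ ≤ 1 / 2) : |Real.log ‖1 - z‖ + z.re| ≤ ‖z‖ ^ 2 := by
  have h1 := Complex.norm_log_one_add_sub_self_le (z := -z) (by rw [norm_neg]; linarith)
  rw [norm_neg, sub_neg_eq_add, ← sub_eq_add_neg] at h1
  have h2 : ‖z‖ ^ 2 * (1 - ‖z‖)⁻¹ / 2 ≤ ‖z‖ ^ 2 := by
    have h3 : (1 - ‖z‖)⁻¹ ≤ 2 := by
      rw [inv_le_comm₀ (by linarith) (by norm_num)]
      linarith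
    have h4 := mul_le_mul_of_nonneg_left h3 (sq_nonneg ‖z‖)
    linarith
  have h3 : Real.log ‖1 - z‖ + z.re = (Complex.log (1 - z) + z).re := by
    rw [Complex.add_re, Complex.log_re]
  rw [h3]
  exact (Complex.abs_re_le_norm _).trans (h1.trans h2)

/-- The sum over the primes of prime norm. -/
lemma sum_TT_prime' (x : ℝ) (N : ℕ) (h : ℕ → ℝ) :
    ∑ P ∈ (TT K N).filter (fun P => (Ideal.absNorm P).Prime), h (Ideal.absNorm P) * f K x P =
      ∑ p ∈ PP N, h p * (A K p * (p : ℝ) ^ (-x)) := by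
  classical
  have hmaps : ∀ P ∈ (TT K N).filter (fun P => (Ideal.absNorm P).Prime),
      Ideal.absNorm P ∈ PP N := by
    intro P hP
    rw [Finset.mem_filter, mem_TT] at hP
    exact mem_PP.mpr ⟨hP.1.1.1, hP.2⟩
  rw [← Finset.sum_fiberwise_of_maps_to hmaps]
  refine Finset.sum_congr rfl fun p hp => ?_
  rw [mem_PP] at hp
  have hc : A K p = (((TT K N).filter (fun P => (Ideal.absNorm P).Prime)).filter
      (fun I => Ideal.absNorm I = p)).card := by
    refine card_eq_A K _ fun I => ?_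
    rw [Finset.mem_filter, Finset.mem_filter, mem_TT]
    refine ⟨fun h => h.2, fun h => ⟨⟨⟨⟨h.le.trans hp.1, ?_⟩, ?_⟩, ?_⟩, h⟩⟩
    · rintro rfl
      rw [Ideal.absNorm_bot] at h
      exact hp.2.ne_zero h.symm
    · refine Ideal.isPrime_of_irreducible_absNorm ?_
      rw [h]
      exact hp.2
    · rw [h]
      exact hp.2
  have h2 : ∀ I ∈ ((TT K N).filter (fun P => (Ideal.absNorm P).Prime)).filter
      (fun I => Ideal.absNorm I = p), h (Ideal.absNorm I) * f K x I = h p * (p : ℝ) ^ (-x) := by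
    intro I hI
    rw [Finset.mem_filter] at hI
    unfold f
    rw [hI.2]
  rw [Finset.sum_congr rfl h2, Finset.sum_const, nsmul_eq_mul, ← hc]
  ring

/-- The sum over the primes. -/
noncomputable def SC (K : Type*) [Field K] [NumberField K] (c : ℕ → ℂ) (s : ℝ) : ℝ :=
  ∑' p : Nat.Primes, (c p).re * (A K p * (p : ℝ) ^ (-s))

lemma abs_re_le {c : ℕ → ℂ} (hc : ∀ n, ‖c n‖ ≤ 1) (n : ℕ) : |(c n).re| ≤ 1 :=
  (Complex.abs_re_le_norm _).trans (hc n)

lemma summable_SC {c : ℕ → ℂ} (hc : ∀ n, ‖c n‖ ≤ 1) {s : ℝ} (hs : 1 < s) :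
    Summable fun p : Nat.Primes => (c p).re * (A K p * (p : ℝ) ^ (-s)) := by
  refine Summable.of_norm (Summable.of_nonneg_of_le (fun _ => norm_nonneg _) (fun p => ?_)
    (summable_S K hs))
  rw [norm_mul, Real.norm_eq_abs, Real.norm_of_nonneg (term_nonneg K s p)]
  exact mul_le_of_le_one_left (term_nonneg K s p) (abs_re_le hc _)

lemma tendsto_SC {c : ℕ → ℂ} (hc : ∀ n, ‖c n‖ ≤ 1) {s : ℝ} (hs : 1 < s) :
    Tendsto (fun N => ∑ p ∈ PP N, (c p).re * (A K p * (p : ℝ) ^ (-s))) atTop (𝓝 (SC K c s)) := by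
  classical
  have hsum := summable_SC (K := K) hc hs
  have h1 : Summable fun n : ℕ => if n.Prime then (c n).re * (A K n * (n : ℝ) ^ (-s)) else 0 := by
    have h2 := (summable_subtype_iff_indicator (s := {n : ℕ | n.Prime})
      (f := fun n : ℕ => (c n).re * (A K n * (n : ℝ) ^ (-s)))).1 hsum
    refine h2.congr fun n => ?_
    rw [Set.indicator_apply]
    rfl
  have h3 : ∑' n : ℕ, (if n.Prime then (c n).re * (A K n * (n : ℝ) ^ (-s)) else 0) = SC K c s := by
    unfold SC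
    have h2 := tsum_subtype {n : ℕ | n.Prime} (fun n : ℕ => (c n).re * (A K n * (n : ℝ) ^ (-s)))
    rw [show (∑' p : Nat.Primes, (c p).re * (A K p * (p : ℝ) ^ (-s))) =
      ∑' p : {n : ℕ | n.Prime}, (c p).re * (A K p * ((p : ℕ) : ℝ) ^ (-s)) from rfl, h2]
    refine tsum_congr fun n => ?_
    rw [Set.indicator_apply]
    rfl
  rw [← h3]
  have h4 := (tendsto_add_atTop_iff_nat 1).2 h1.hasSum.tendsto_sum_nat
  refine h4.congr fun N => ?_
  rw [← Finset.sum_filter]
  rfl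

/-- **The logarithm of the twisted zeta function.** -/
theorem log_LK {c : ℕ → ℂ} (h1 : c 1 = 1) (hm : ∀ a b, c (a * b) = c a * c b)
    (hc : ∀ n, ‖c n‖ ≤ 1) {s : ℝ} (hs : 1 < s) :
    LK K c s ≠ 0 ∧ |Real.log ‖LK K c s‖ - SC K c s| ≤ 2 * cc K := by
  classical
  have hT := tendsto_LS (K := K) h1 hc hs
  have hprime : ∀ N : ℕ, ∀ Q ∈ TT K N, Q.IsPrime ∧ Q ≠ ⊥ := fun N Q hQ =>
    ⟨((mem_TT K).1 hQ).2, ((mem_TT K).1 hQ).1.2⟩
  have hT2 : Tendsto (fun N => (∏ P ∈ TT K N, (1 - gI K c s P)) * LK K c s) atTop (𝓝 1) :=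
    hT.congr fun N => LS_eq hm hc hs _ (hprime N)
  have hL0 : LK K c s ≠ 0 := by
    intro h
    rw [h] at hT2
    simp only [mul_zero] at hT2
    exact zero_ne_one (tendsto_nhds_unique tendsto_const_nhds hT2)
  refine ⟨hL0, ?_⟩
  have hfac : ∀ N : ℕ, ∀ P ∈ TT K N, ‖1 - gI K c s P‖ ≠ 0 := by
    intro N P hP
    have h2 := gI_norm_le_half hc hs.le hP
    rw [norm_ne_zero_iff]
    intro h3
    have h4 : gI K c s P = 1 := (sub_eq_zero.1 h3).symm
    rw [h4, norm_one] at h2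
    norm_num at h2
  have hlog : Tendsto (fun N => ∑ P ∈ TT K N, Real.log ‖1 - gI K c s P‖ +
      Real.log ‖LK K c s‖) atTop (𝓝 0) := by
    have h2 := (Real.continuousAt_log (one_ne_zero)).tendsto.comp (by
      have := hT2.norm
      rwa [norm_one] at this)
    rw [Real.log_one] at h2
    refine h2.congr fun N => ?_
    show Real.log ‖(∏ P ∈ TT K N, (1 - gI K c s P)) * LK K c s‖ = _
    rw [norm_mul, norm_prod, Real.log_mul (Finset.prod_ne_zero_iff.2 (hfac N))
      (norm_ne_zero_iff.2 hL0), Real.log_prod fun P hP => hfac N P hP]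
  -- comparison for finite `N`
  have hcomp : ∀ N : ℕ, |∑ P ∈ TT K N, Real.log ‖1 - gI K c s P‖ +
      ∑ p ∈ PP N, (c p).re * (A K p * (p : ℝ) ^ (-s))| ≤ 2 * cc K := by
    intro N
    have h2 : ∑ p ∈ PP N, (c p).re * (A K p * (p : ℝ) ^ (-s)) =
        ∑ P ∈ TT K N, (gI K c s P).re -
          ∑ P ∈ (TT K N).filter (fun P => ¬ (Ideal.absNorm P).Prime), (gI K c s P).re := by
      rw [← sum_TT_prime' s N fun n => (c n).re, ← Finset.sum_filter_add_sum_filter_not (TT K N)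
        (fun P => (Ideal.absNorm P).Prime) fun P => (gI K c s P).re, add_sub_cancel_right]
      refine Finset.sum_congr rfl fun P _ => ?_
      unfold gI f
      rw [Complex.re_mul_ofReal]
    rw [h2]
    have h3 : |∑ P ∈ TT K N, (Real.log ‖1 - gI K c s P‖ + (gI K c s P).re)| ≤ cc K := by
      refine (Finset.abs_sum_le_sum_abs _ _).trans (le_trans ?_ (sum_TT_sq K hs.le N))
      refine Finset.sum_le_sum fun P hP => ?_
      refine (log_one_sub (gI_norm_le_half hc hs.le hP)).trans ?_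
      exact pow_le_pow_left₀ (norm_nonneg _) (gI_norm_le hc s P) 2
    have h4 : |∑ P ∈ (TT K N).filter (fun P => ¬ (Ideal.absNorm P).Prime), (gI K c s P).re| ≤
        cc K := by
      refine (Finset.abs_sum_le_sum_abs _ _).trans (le_trans ?_ (sum_TT_nonprime K hs.le N))
      exact Finset.sum_le_sum fun P _ => (Complex.abs_re_le_norm _).trans (gI_norm_le hc s P)
    rw [Finset.sum_add_distrib] at h3
    rw [abs_le] at h3 h4 ⊢
    constructor <;> linarith [h3.1, h3.2, h4.1, h4.2]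
  have hlim : Tendsto (fun N => (∑ P ∈ TT K N, Real.log ‖1 - gI K c s P‖ +
      ∑ p ∈ PP N, (c p).re * (A K p * (p : ℝ) ^ (-s))) -
      (∑ P ∈ TT K N, Real.log ‖1 - gI K c s P‖ + Real.log ‖LK K c s‖)) atTop
      (𝓝 (SC K c s - Real.log ‖LK K c s‖)) := by
    have h2 : (fun N => (∑ P ∈ TT K N, Real.log ‖1 - gI K c s P‖ +
        ∑ p ∈ PP N, (c p).re * (A K p * (p : ℝ) ^ (-s))) -
        (∑ P ∈ TT K N, Real.log ‖1 - gI K c s P‖ + Real.log ‖LK K c s‖)) =
        fun N => ∑ p ∈ PP N, (c p).re * (A K p * (p : ℝ) ^ (-s)) - Real.log ‖LK K c s‖ := by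
      funext N
      ring
    rw [h2]
    exact (tendsto_SC hc hs).sub_const _
  have h5 := hlim.add hlog
  rw [add_zero] at h5
  have h6 := h5.abs
  rw [abs_sub_comm]
  refine le_of_tendsto h6 (Filter.Eventually.of_forall fun N => ?_)
  have h7 := hcomp N
  rw [sub_add_cancel]
  exact h7

end Pool.Agent.Lib.MP_058a58_ag.Ch
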