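import Pool.Agent.Lib.MP_058a58_ag.Ch.Classes

set_option autoImplicit false

/-!
# Periodicity of the coefficient functions
-/

namespace Pool.Agent.Lib.MP_058a58_ag.Ch

open NumberField Filter Topology nonZeroDivisors

variable {K : Type*} [Field K] [NumberField K]

/-- The norm modulo `k` only depends on the class modulo `k`. -/
lemma norm_congr (k : ℕ) (x y : 𝓞 K) :
    (k : ℤ) ∣ Algebra.norm ℤ (x + k * y) - Algebra.norm ℤ x := by
  classical
  set b := Module.Free.chooseBasis ℤ (𝓞 K)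
  rw [← ZMod.intCast_zmod_eq_zero_iff_dvd, Int.cast_sub, sub_eq_zero,
    Algebra.norm_eq_matrix_det b, Algebra.norm_eq_matrix_det b]
  set F : 𝓞 K →+* Matrix (Module.Free.ChooseBasisIndex ℤ (𝓞 K))
      (Module.Free.ChooseBasisIndex ℤ (𝓞 K)) (ZMod k) :=
    (Int.castRingHom (ZMod k)).mapMatrix.comp (Algebra.leftMulMatrix b).toRingHom
    with hF
  have h1 : ∀ z : 𝓞 K, (((Algebra.leftMulMatrix b z).det : ℤ) : ZMod k) = (F z).det := by
    intro z
    exact RingHom.map_det (Int.castRingHom (ZMod k)) _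
  rw [h1, h1, map_add, map_mul, map_natCast]
  have h2 : ((k : ℕ) : Matrix (Module.Free.ChooseBasisIndex ℤ (𝓞 K))
      (Module.Free.ChooseBasisIndex ℤ (𝓞 K)) (ZMod k)) = 0 := by
    rw [← Matrix.diagonal_natCast, ZMod.natCast_self, Matrix.diagonal_zero]
  rw [h2, zero_mul, add_zero]

lemma chi_natAbs {m : ℕ} (χ : DirichletCharacter ℂ m) (a : ℤ) (h : χ.Even ∨ 0 ≤ a) :
    χ ((a.natAbs : ℕ) : ZMod m) = χ ((a : ℤ) : ZMod m) := by
  rcases h with h | h
  · rcases Int.natAbs_eq a with h1 | h1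
    · have h2 : ((a : ℤ) : ZMod m) = ((a.natAbs : ℕ) : ZMod m) := by
        conv_lhs => rw [h1]
        simp
      rw [h2]
    · have h2 : ((a : ℤ) : ZMod m) = -((a.natAbs : ℕ) : ZMod m) := by
        conv_lhs => rw [h1]
        simp
      rw [h2, h.eval_neg]
  · have h2 : ((a : ℤ) : ZMod m) = ((a.natAbs : ℕ) : ZMod m) := by
      conv_lhs => rw [← Int.natAbs_of_nonneg h]
      simp
    rw [h2]

/-- The coefficient function is periodic modulo `m N(J)`. -/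
lemma psi_per {m : ℕ} (χ : DirichletCharacter ℂ m)
    (hχ : χ.Even ∨ ∀ x : 𝓞 K, 0 ≤ Algebra.norm ℤ x) (J : (Ideal (𝓞 K))⁰) (x y : 𝓞 K) :
    psi (fun n => χ (n : ZMod m)) (J : Ideal (𝓞 K))
        (x + ((m * Ideal.absNorm (J : Ideal (𝓞 K)) : ℕ) : 𝓞 K) * y) =
      psi (fun n => χ (n : ZMod m)) (J : Ideal (𝓞 K)) x := by
  classical
  set N := Ideal.absNorm (J : Ideal (𝓞 K)) with hN
  have hN0 : 0 < N := absNorm_pos' J
  have hmem : ((m * N : ℕ) : 𝓞 K) * y ∈ (J : Ideal (𝓞 K)) := by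
    push_cast
    rw [mul_assoc, mul_left_comm]
    exact Ideal.mul_mem_right _ _ (Ideal.absNorm_mem _)
  have hiff : x + ((m * N : ℕ) : 𝓞 K) * y ∈ (J : Ideal (𝓞 K)) ↔ x ∈ (J : Ideal (𝓞 K)) :=
    Ideal.add_mem_iff_left _ hmem
  unfold psi
  by_cases hx : x ∈ (J : Ideal (𝓞 K))
  · rw [if_pos hx, if_pos (hiff.2 hx)]
    obtain ⟨a, ha⟩ : (N : ℤ) ∣ Algebra.norm ℤ x := Ideal.absNorm_dvd_norm_of_mem hx
    obtain ⟨b, hb⟩ : (N : ℤ) ∣ Algebra.norm ℤ (x + ((m * N : ℕ) : 𝓞 K) * y) :=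
      Ideal.absNorm_dvd_norm_of_mem (hiff.2 hx)
    have hNz : (0 : ℤ) < N := by exact_mod_cast hN0
    have h1 : (m : ℤ) ∣ b - a := by
      have h2 := norm_congr (m * N) x y
      rw [ha, hb, ← mul_sub, Nat.cast_mul, mul_comm (m : ℤ)] at h2
      exact Int.dvd_of_mul_dvd_mul_left hNz.ne' h2
    have h3 : ∀ z : ℤ, ((N : ℤ) * z).natAbs / N = z.natAbs := by
      intro z
      rw [Int.natAbs_mul, Int.natAbs_natCast, Nat.mul_div_cancel_left _ hN0]
    have h4 : (((b : ℤ)) : ZMod m) = ((a : ℤ) : ZMod m) := by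
      rw [← sub_eq_zero, ← Int.cast_sub, ZMod.intCast_zmod_eq_zero_iff_dvd]
      exact h1
    have ha0 : χ.Even ∨ 0 ≤ a := by
      refine hχ.imp id fun h => ?_
      have h5 := h x
      rw [ha] at h5
      exact nonneg_of_mul_nonneg_right h5 hNz
    have hb0 : χ.Even ∨ 0 ≤ b := by
      refine hχ.imp id fun h => ?_
      have h5 := h (x + ((m * N : ℕ) : 𝓞 K) * y)
      rw [hb] at h5
      exact nonneg_of_mul_nonneg_right h5 hNz
    rw [ha, hb, h3, h3]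
    show χ ((b.natAbs : ℕ) : ZMod m) = χ ((a.natAbs : ℕ) : ZMod m)
    rw [chi_natAbs χ a ha0, chi_natAbs χ b hb0, h4]
  · rw [if_neg hx, if_neg fun h => hx (hiff.1 h)]

end Pool.Agent.Lib.MP_058a58_ag.Ch
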