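import Pool.Agent.Lib.MP_058a58_ag.Ch.UDefs

set_option autoImplicit false

/-!
# Sums over ideals as Dirichlet series
-/

namespace Pool.Agent.Lib.MP_058a58_ag.Ch

open NumberField Filter Topology nonZeroDivisors TatePole.Ded

variable (K : Type*) [Field K] [NumberField K]

/-- The twisted zeta function with the completely multiplicative (or any) coefficients `c`. -/
noncomputable def LK (c : ℕ → ℂ) (s : ℝ) : ℂ :=
  ∑' I : (Ideal (𝓞 K))⁰, c (Ideal.absNorm (I : Ideal (𝓞 K))) *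
    (((Ideal.absNorm (I : Ideal (𝓞 K)) : ℝ) ^ (-s) : ℝ) : ℂ)

lemma summable_ideal {s : ℝ} (hs : 1 < s) :
    Summable fun I : (Ideal (𝓞 K))⁰ => (Ideal.absNorm (I : Ideal (𝓞 K)) : ℝ) ^ (-s) := by
  classical
  refine summable_of_sum_le (c := Z K s) (fun I => Real.rpow_nonneg (Nat.cast_nonneg _) _)
    fun u => ?_
  set N := u.sup fun I => Ideal.absNorm (I : Ideal (𝓞 K)) with hN
  have h1 : ∑ I ∈ u, (Ideal.absNorm (I : Ideal (𝓞 K)) : ℝ) ^ (-s) =
      ∑ I ∈ u.image (fun I : (Ideal (𝓞 K))⁰ => (I : Ideal (𝓞 K))), f K s I := by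
    rw [Finset.sum_image fun a _ b _ h => Subtype.ext h]
    rfl
  rw [h1]
  refine le_trans (Finset.sum_le_sum_of_subset_of_nonneg ?_ fun I _ _ => f_nonneg K s I)
    (sum_JJ_le_Z K hs N)
  intro I hI
  obtain ⟨J, hJ, rfl⟩ := Finset.mem_image.1 hI
  rw [mem_JJ]
  exact ⟨Finset.le_sup (f := fun I : (Ideal (𝓞 K))⁰ => Ideal.absNorm (I : Ideal (𝓞 K))) hJ,
    nonZeroDivisors.ne_zero J.2⟩

lemma summable_LK {c : ℕ → ℂ} (hc : ∀ n, ‖c n‖ ≤ 1) {s : ℝ} (hs : 1 < s) :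
    Summable fun I : (Ideal (𝓞 K))⁰ => ‖c (Ideal.absNorm (I : Ideal (𝓞 K))) *
      (((Ideal.absNorm (I : Ideal (𝓞 K)) : ℝ) ^ (-s) : ℝ) : ℂ)‖ := by
  refine Summable.of_nonneg_of_le (fun _ => norm_nonneg _) (fun I => ?_) (summable_ideal K hs)
  rw [norm_mul, Complex.norm_real, Real.norm_of_nonneg (Real.rpow_nonneg (Nat.cast_nonneg _) _)]
  exact mul_le_of_le_one_left (Real.rpow_nonneg (Nat.cast_nonneg _) _) (hc _)

/-- As a sum over the natural numbers. -/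
theorem LK_eq {c : ℕ → ℂ} (hc : ∀ n, ‖c n‖ ≤ 1) {s : ℝ} (hs : 1 < s) :
    LK K c s = ∑' n : ℕ, c n * ((A K n * (n : ℝ) ^ (-s) : ℝ) : ℂ) := by
  have hsn := summable_LK K hc hs
  set e := Equiv.sigmaFiberEquiv (fun I : (Ideal (𝓞 K))⁰ => Ideal.absNorm (I : Ideal (𝓞 K)))
    with he
  unfold LK
  set g : (Ideal (𝓞 K))⁰ → ℂ := fun I => c (Ideal.absNorm (I : Ideal (𝓞 K))) *
      (((Ideal.absNorm (I : Ideal (𝓞 K)) : ℝ) ^ (-s) : ℝ) : ℂ) with hg
  have hsn2 : Summable fun p => ‖(g ∘ e) p‖ := by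
    have := e.summable_iff.2 hsn
    exact this
  have h1 : ∑' I, g I = ∑' p, (g ∘ e) p := (e.tsum_eq g).symm
  rw [h1, hsn2.of_norm.tsum_sigma' fun n => ((summable_sigma_of_nonneg
    fun _ => norm_nonneg _).1 hsn2).1 n |>.of_norm]
  refine tsum_congr fun n => ?_
  have h2 : ∀ y : {I : (Ideal (𝓞 K))⁰ // Ideal.absNorm (I : Ideal (𝓞 K)) = n},
      (g ∘ e) ⟨n, y⟩ = c n * (((n : ℝ) ^ (-s) : ℝ) : ℂ) := by
    intro y
    show c (Ideal.absNorm (y.1 : Ideal (𝓞 K))) *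
      (((Ideal.absNorm (y.1 : Ideal (𝓞 K)) : ℝ) ^ (-s) : ℝ) : ℂ) = _
    rw [y.2]
  rw [tsum_congr h2, tsum_const, nsmul_eq_mul]
  rcases Nat.eq_zero_or_pos n with h0 | h0
  · subst h0
    rw [Nat.cast_zero, Real.zero_rpow (by linarith)]
    simp
  · have h3 : Nat.card {I : (Ideal (𝓞 K))⁰ // Ideal.absNorm (I : Ideal (𝓞 K)) = n} =
        Nat.card {I : Ideal (𝓞 K) // Ideal.absNorm I = n} := by
      refine Nat.card_congr (Equiv.ofBijective (fun y => ⟨(y.1 : Ideal (𝓞 K)), y.2⟩) ⟨?_, ?_⟩)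
      · intro a b h
        rw [Subtype.ext_iff] at h
        exact Subtype.ext (Subtype.ext h)
      · rintro ⟨I, hI⟩
        refine ⟨⟨⟨I, mem_nonZeroDivisors_of_ne_zero ?_⟩, hI⟩, rfl⟩
        rintro rfl
        have h4 : Ideal.absNorm (0 : Ideal (𝓞 K)) = 0 := Ideal.absNorm_bot
        omega
    rw [h3]
    unfold A
    push_cast
    ring

lemma LK_one {s : ℝ} (hs : 1 < s) : LK K (fun _ => 1) s = ((Z K s : ℝ) : ℂ) := by
  rw [LK_eq K (fun _ => by simp) hs]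
  unfold Z
  rw [Complex.ofReal_tsum]
  exact tsum_congr fun n => one_mul _

/-- The residue of the zeta function. -/
lemma tendsto_Z : Tendsto (fun s : ℝ => (s - 1) * Z K s) (𝓝[>] 1) (𝓝 (dedekindZeta_residue K)) := by
  have h := NumberField.tendsto_sub_one_mul_dedekindZeta_nhdsGT K
  have h2 : Tendsto (fun s : ℝ => (((s - 1) * Z K s : ℝ) : ℂ)) (𝓝[>] 1)
      (𝓝 ((dedekindZeta_residue K : ℝ) : ℂ)) := by
    refine h.congr' ?_
    filter_upwards [self_mem_nhdsWithin] with s hs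
    have hs' : (1 : ℝ) < s := hs
    rw [dedekindZeta_eq K (by linarith)]
    push_cast
    ring
  have h3 := (Complex.continuous_re.tendsto _).comp h2
  exact h3

end Pool.Agent.Lib.MP_058a58_ag.Ch
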