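import Pool.Agent.Lib.MP_058a58_ag.Ch.Coset
import Pool.Agent.Lib.MP_058a58_ag.Ch.Period
import Pool.Agent.Lib.MP_058a58_ag.Ch.Series

set_option autoImplicit false

/-!
# The twisted zeta functions near `s = 1`
-/

namespace Pool.Agent.Lib.MP_058a58_ag.Ch

open NumberField Filter Topology nonZeroDivisors TatePole.Ded

variable {K : Type*} [Field K] [NumberField K]

/-- The power of the norm of the representative. -/
noncomputable def aC (C : ClassGroup (𝓞 K)) (s : ℝ) : ℝ :=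
  (Ideal.absNorm (rep C : Ideal (𝓞 K)) : ℝ) ^ s

lemma aC_pos (C : ClassGroup (𝓞 K)) (s : ℝ) : 0 < aC C s :=
  Real.rpow_pos_of_pos (by exact_mod_cast absNorm_pos' (rep C)) s

lemma tendsto_aC (C : ClassGroup (𝓞 K)) : Tendsto (aC C) (𝓝[>] 1) (𝓝 (aC C 1)) := by
  have h : Continuous (aC C) :=
    Real.continuous_const_rpow (by exact_mod_cast (absNorm_pos' (rep C)).ne')
  exact (h.tendsto 1).mono_left nhdsWithin_le_nhds

lemma tendsto_slope_aC (C : ClassGroup (𝓞 K)) :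
    ∃ d : ℝ, Tendsto (fun s : ℝ => (aC C s - aC C 1) / (s - 1)) (𝓝[>] 1) (𝓝 d) := by
  have hpos : (0 : ℝ) < (Ideal.absNorm (rep C : Ideal (𝓞 K)) : ℝ) := by
    exact_mod_cast absNorm_pos' (rep C)
  have h := (Real.hasStrictDerivAt_const_rpow hpos 1).hasDerivAt
  have h2 := hasDerivAt_iff_tendsto_slope.1 h
  refine ⟨_, (h2.mono_left (nhdsWithin_mono _ fun s (hs : 1 < s) => hs.ne')).congr fun s => ?_⟩
  rw [slope_def_field]
  rfl

/-- The decomposition of the twisted zeta function. -/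
lemma LK_decomp {w : 𝓞 K → ℝ} (hw : WOK K w) (c : ℕ → ℂ) (hc : ∀ n, ‖c n‖ ≤ 1)
    (k : ClassGroup (𝓞 K) → ℕ) (hk : ∀ C, 1 ≤ k C)
    (hper : ∀ C (x y : 𝓞 K), psi c (rep C : Ideal (𝓞 K)) (x + (k C : 𝓞 K) * y) =
      psi c (rep C : Ideal (𝓞 K)) x) :
    ∃ l : ClassGroup (𝓞 K) → ℂ, ∃ E : ClassGroup (𝓞 K) → ℝ → ℂ,
      (∀ C, Tendsto (E C) (𝓝[>] 1) (𝓝 (l C))) ∧ ∀ s : ℝ, 1 < s →
      LK K c s = ∑ C : ClassGroup (𝓞 K), ((aC C s : ℝ) : ℂ) *
        (kap K (k C) (psi c (rep C : Ideal (𝓞 K))) * ((Tw K w s : ℝ) : ℂ) + E C s) := by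
  choose l hl using fun C => coset_lim hw (hk C) (psi c (rep C : Ideal (𝓞 K))) (hper C)
  refine ⟨l, _, hl, fun s hs => ?_⟩
  unfold LK
  rw [twist_eq hw (by linarith) (summable_LK K hc hs)]
  refine Finset.sum_congr rfl fun C _ => ?_
  unfold aC
  congr 1
  ring

/-- the weighted sum over the ring of integers has a simple pole. -/
theorem tendsto_Tw {w : 𝓞 K → ℝ} (hw : WOK K w) :
    ∃ ρ : ℝ, 0 < ρ ∧ Tendsto (fun s : ℝ => (s - 1) * Tw K w s) (𝓝[>] 1) (𝓝 ρ) := by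
  classical
  set k : ClassGroup (𝓞 K) → ℕ := fun C => Ideal.absNorm (rep C : Ideal (𝓞 K)) with hkdef
  have hk : ∀ C, 1 ≤ k C := fun C => absNorm_pos' (rep C)
  set c : ℕ → ℂ := fun _ => 1 with hcdef
  have hmem : ∀ C (x y : 𝓞 K), x + (k C : 𝓞 K) * y ∈ (rep C : Ideal (𝓞 K)) ↔
      x ∈ (rep C : Ideal (𝓞 K)) := fun C x y =>
    Ideal.add_mem_iff_left _ (Ideal.mul_mem_right _ _ (Ideal.absNorm_mem _))
  have hper : ∀ C (x y : 𝓞 K), psi c (rep C : Ideal (𝓞 K)) (x + (k C : 𝓞 K) * y) =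
      psi c (rep C : Ideal (𝓞 K)) x := by
    intro C x y
    unfold psi
    simp only [hmem C x y, hcdef]
  obtain ⟨l, E, hE, hdec⟩ := LK_decomp hw c (fun _ => by simp [hcdef]) k hk hper
  -- the constants are positive
  have hkap : ∀ C : ClassGroup (𝓞 K), ∃ r : ℝ, 0 < r ∧
      kap K (k C) (psi c (rep C : Ideal (𝓞 K))) = ((r : ℝ) : ℂ) := by
    intro C
    have hfin := finite_Rk (K := K) (hk C)
    have : Fintype (Rk K (k C)) := Fintype.ofFinite _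
    refine ⟨((k C : ℝ) ^ (-(Module.finrank ℚ K : ℤ))) * ∑ a : Rk K (k C),
      (if a.out ∈ (rep C : Ideal (𝓞 K)) then 1 else 0), ?_, ?_⟩
    · refine mul_pos (zpow_pos (by exact_mod_cast hk C) _) ?_
      refine Finset.sum_pos' (fun a _ => by split_ifs <;> norm_num) ⟨0, Finset.mem_univ _, ?_⟩
      rw [if_pos]
      · exact one_pos
      · have h1 : (0 : Rk K (k C)).out ∈ Ideal.span {(k C : 𝓞 K)} := by
          rw [← Ideal.Quotient.eq_zero_iff_mem, Ideal.Quotient.mk_out]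
        obtain ⟨z, hz⟩ := Ideal.mem_span_singleton.1 h1
        rw [hz]
        exact Ideal.mul_mem_right _ _ (Ideal.absNorm_mem _)
    · unfold kap psi
      rw [finsum_eq_sum_of_fintype]
      push_cast
      congr 1
      refine Finset.sum_congr rfl fun a _ => ?_
      split_ifs <;> simp [hcdef]
  choose r hr hkr using hkap
  set α : ℝ := ∑ C : ClassGroup (𝓞 K), aC C 1 * r C with hα
  have hα0 : 0 < α := by
    refine Finset.sum_pos (fun C _ => mul_pos (aC_pos C 1) (hr C)) ⟨1, Finset.mem_univ _⟩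
  refine ⟨dedekindZeta_residue K / α, div_pos (dedekindZeta_residue_pos K) hα0, ?_⟩
  -- the complex statement
  have hA : Tendsto (fun s : ℝ => ∑ C : ClassGroup (𝓞 K), aC C s * r C) (𝓝[>] 1) (𝓝 α) :=
    tendsto_finsetSum _ fun C _ => (tendsto_aC C).mul_const _
  have hB : Tendsto (fun s : ℝ => ∑ C : ClassGroup (𝓞 K), ((aC C s : ℝ) : ℂ) * E C s) (𝓝[>] 1)
      (𝓝 (∑ C : ClassGroup (𝓞 K), ((aC C 1 : ℝ) : ℂ) * l C)) :=
    tendsto_finsetSum _ fun C _ =>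
      ((Complex.continuous_ofReal.tendsto _).comp (tendsto_aC C)).mul (hE C)
  have hBr := (Complex.continuous_re.tendsto _).comp hB
  have hs0 : Tendsto (fun s : ℝ => s - 1) (𝓝[>] 1) (𝓝 0) := by
    have : Continuous fun s : ℝ => s - 1 := by fun_prop
    have h := (this.tendsto 1).mono_left (nhdsWithin_le_nhds (s := Set.Ioi 1))
    simpa using h
  have hnum : Tendsto (fun s : ℝ => (s - 1) * Z K s - (s - 1) *
      (∑ C : ClassGroup (𝓞 K), ((aC C s : ℝ) : ℂ) * E C s).re) (𝓝[>] 1)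
      (𝓝 (dedekindZeta_residue K - 0 *
        (∑ C : ClassGroup (𝓞 K), ((aC C 1 : ℝ) : ℂ) * l C).re)) :=
    (tendsto_Z K).sub (hs0.mul hBr)
  rw [zero_mul, sub_zero] at hnum
  refine (hnum.div hA hα0.ne').congr' ?_
  filter_upwards [self_mem_nhdsWithin] with s hs
  have hs' : (1 : ℝ) < s := hs
  have h1 := hdec s hs'
  rw [LK_one K hs'] at h1
  have h2 : ((Z K s : ℝ) : ℂ) = (((∑ C : ClassGroup (𝓞 K), aC C s * r C) * Tw K w s : ℝ) : ℂ) +
      ∑ C : ClassGroup (𝓞 K), ((aC C s : ℝ) : ℂ) * E C s := by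
    rw [h1, Finset.sum_mul]
    push_cast
    rw [← Finset.sum_add_distrib]
    refine Finset.sum_congr rfl fun C _ => ?_
    rw [hkr]
    ring
  have h3 := congrArg Complex.re h2
  rw [Complex.add_re, Complex.ofReal_re, Complex.ofReal_re] at h3
  have h4 : 0 < ∑ C : ClassGroup (𝓞 K), aC C s * r C :=
    Finset.sum_pos (fun C _ => mul_pos (aC_pos C s) (hr C)) ⟨1, Finset.mem_univ _⟩
  rw [Pi.div_apply, div_eq_iff h4.ne', h3]
  ring

/-- **The twisted zeta functions near `s = 1`.** -/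
theorem twist_lim {w : 𝓞 K → ℝ} (hw : WOK K w) {m : ℕ} (hm : 1 ≤ m) (χ : DirichletCharacter ℂ m)
    (hχ : χ.Even ∨ ∀ x : 𝓞 K, 0 ≤ Algebra.norm ℤ x) :
    ∃ κ l : ℂ, Tendsto (fun s : ℝ => LK K (fun n => χ (n : ZMod m)) s -
      κ * ((Tw K w s : ℝ) : ℂ)) (𝓝[>] 1) (𝓝 l) := by
  obtain ⟨ρ, -, hρ⟩ := tendsto_Tw hw
  set c : ℕ → ℂ := fun n => χ (n : ZMod m) with hcdef
  set k : ClassGroup (𝓞 K) → ℕ := fun C => m * Ideal.absNorm (rep C : Ideal (𝓞 K)) with hkdef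
  have hk : ∀ C, 1 ≤ k C := fun C => Nat.mul_pos hm (absNorm_pos' (rep C))
  obtain ⟨l, E, hE, hdec⟩ := LK_decomp hw c (fun n => χ.norm_le_one _) k hk
    (fun C x y => psi_per χ hχ (rep C) x y)
  choose d hd using fun C : ClassGroup (𝓞 K) => tendsto_slope_aC C
  set κ : ClassGroup (𝓞 K) → ℂ := fun C => kap K (k C) (psi c (rep C : Ideal (𝓞 K))) with hκ
  refine ⟨∑ C : ClassGroup (𝓞 K), ((aC C 1 : ℝ) : ℂ) * κ C,
    ∑ C : ClassGroup (𝓞 K), (((aC C 1 : ℝ) : ℂ) * l C + κ C * ((d C * ρ : ℝ) : ℂ)), ?_⟩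
  have h1 : Tendsto (fun s : ℝ => ∑ C : ClassGroup (𝓞 K), (((aC C s : ℝ) : ℂ) * E C s +
      κ C * (((aC C s - aC C 1) / (s - 1) * ((s - 1) * Tw K w s) : ℝ) : ℂ))) (𝓝[>] 1)
      (𝓝 (∑ C : ClassGroup (𝓞 K), (((aC C 1 : ℝ) : ℂ) * l C + κ C * ((d C * ρ : ℝ) : ℂ)))) :=
    tendsto_finsetSum _ fun C _ =>
      (((Complex.continuous_ofReal.tendsto _).comp (tendsto_aC C)).mul (hE C)).add
        (tendsto_const_nhds.mul ((Complex.continuous_ofReal.tendsto _).comp ((hd C).mul hρ)))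
  refine h1.congr' ?_
  filter_upwards [self_mem_nhdsWithin] with s hs
  have hs' : (1 : ℝ) < s := hs
  rw [hdec s hs', Finset.sum_mul, ← Finset.sum_sub_distrib]
  refine Finset.sum_congr rfl fun C _ => ?_
  have h2 : (aC C s - aC C 1) / (s - 1) * ((s - 1) * Tw K w s) = (aC C s - aC C 1) * Tw K w s := by
    have : s - 1 ≠ 0 := by linarith
    field_simp
  rw [h2]
  push_cast
  ring

end Pool.Agent.Lib.MP_058a58_ag.Ch
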