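import Pool.Agent.Lib.MP_058a58_ag.Ch.Unfold

set_option autoImplicit false

/-!
# The sum over all ideals as a sum over the classes of weighted sums over the ring of integers
-/

namespace Pool.Agent.Lib.MP_058a58_ag.Ch

open NumberField Filter Topology nonZeroDivisors

variable {K : Type*} [Field K] [NumberField K]

/-- An integral ideal in the inverse class. -/
noncomputable def rep (C : ClassGroup (𝓞 K)) : (Ideal (𝓞 K))⁰ :=
  (ClassGroup.mk0_surjective C⁻¹).choose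

lemma mk0_rep (C : ClassGroup (𝓞 K)) : ClassGroup.mk0 (rep C) = C⁻¹ :=
  (ClassGroup.mk0_surjective C⁻¹).choose_spec

open Classical in
/-- The function on the multiples of `rep C`. -/
noncomputable def GC (f : ℕ → ℂ) (C : ClassGroup (𝓞 K)) (I : (Ideal (𝓞 K))⁰) : ℂ :=
  if (rep C : Ideal (𝓞 K)) ∣ I then
    f (Ideal.absNorm (I : Ideal (𝓞 K)) / Ideal.absNorm (rep C : Ideal (𝓞 K))) else 0

lemma absNorm_pos' (I : (Ideal (𝓞 K))⁰) : 0 < Ideal.absNorm (I : Ideal (𝓞 K)) :=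
  Ideal.absNorm_pos_of_nonZeroDivisors I

lemma mul_rep_inj (C : ClassGroup (𝓞 K)) :
    Function.Injective fun I : (Ideal (𝓞 K))⁰ => rep C * I := fun _ _ h => mul_left_cancel h

lemma GC_mul (f : ℕ → ℂ) (C : ClassGroup (𝓞 K)) (I : (Ideal (𝓞 K))⁰) :
    GC f C (rep C * I) = f (Ideal.absNorm (I : Ideal (𝓞 K))) := by
  unfold GC
  rw [if_pos, Submonoid.coe_mul, map_mul, Nat.mul_div_cancel_left _ (absNorm_pos' (rep C))]
  exact ⟨I, rfl⟩

lemma GC_zero (f : ℕ → ℂ) (C : ClassGroup (𝓞 K)) (I : (Ideal (𝓞 K))⁰)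
    (h : I ∉ Set.range fun I : (Ideal (𝓞 K))⁰ => rep C * I) : GC f C I = 0 := by
  unfold GC
  rw [if_neg]
  rintro ⟨J, hJ⟩
  have hJ0 : J ≠ 0 := by
    rintro rfl
    rw [mul_zero] at hJ
    exact nonZeroDivisors.ne_zero I.2 hJ
  exact h ⟨⟨J, mem_nonZeroDivisors_of_ne_zero hJ0⟩, Subtype.ext hJ.symm⟩

lemma summable_GC {f : ℕ → ℂ} (C : ClassGroup (𝓞 K))
    (hf : Summable fun I : (Ideal (𝓞 K))⁰ => ‖f (Ideal.absNorm (I : Ideal (𝓞 K)))‖) :
    Summable fun I : (Ideal (𝓞 K))⁰ => ‖GC f C I‖ := by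
  rw [← (mul_rep_inj C).summable_iff]
  · refine hf.congr fun I => ?_
    show _ = ‖GC f C (rep C * I)‖
    rw [GC_mul]
  · intro I hI
    rw [GC_zero f C I hI, norm_zero]

open Classical in
lemma tsum_GC {f : ℕ → ℂ} (C : ClassGroup (𝓞 K)) :
    ∑' I : (Ideal (𝓞 K))⁰, (if (I : Ideal (𝓞 K)).IsPrincipal then GC f C I else 0) =
      ∑' I : (Ideal (𝓞 K))⁰, if ClassGroup.mk0 I = C then
        f (Ideal.absNorm (I : Ideal (𝓞 K))) else 0 := by
  rw [← (mul_rep_inj C).tsum_eq]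
  · refine tsum_congr fun I => ?_
    rw [GC_mul]
    have h : ((rep C * I : (Ideal (𝓞 K))⁰) : Ideal (𝓞 K)).IsPrincipal ↔ ClassGroup.mk0 I = C := by
      rw [← ClassGroup.mk0_eq_one_iff (SetLike.coe_mem _)]
      have h2 : ClassGroup.mk0 (⟨((rep C * I : (Ideal (𝓞 K))⁰) : Ideal (𝓞 K)),
          SetLike.coe_mem _⟩ : (Ideal (𝓞 K))⁰) = ClassGroup.mk0 (rep C) * ClassGroup.mk0 I := by
        rw [← map_mul]
      rw [h2, mk0_rep, inv_mul_eq_one, eq_comm]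
    by_cases h1 : ClassGroup.mk0 I = C
    · rw [if_pos (h.2 h1), if_pos h1]
    · rw [if_neg fun h' => h1 (h.1 h'), if_neg h1]
  · intro I hI
    by_contra hcon
    apply hI
    have := GC_zero f C I hcon
    simp only [this, ite_self]

/-- The coefficient function on the ring of integers. -/
noncomputable def psi (c : ℕ → ℂ) (J : Ideal (𝓞 K)) (x : 𝓞 K) : ℂ := by
  classical
  exact if x ∈ J then c ((Algebra.norm ℤ x).natAbs / Ideal.absNorm J) else 0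

/-- The sum over all ideals. -/
theorem sum_ideals {w : 𝓞 K → ℝ} (hw : WOK K w) {f : ℕ → ℂ}
    (hf : Summable fun I : (Ideal (𝓞 K))⁰ => ‖f (Ideal.absNorm (I : Ideal (𝓞 K)))‖) :
    ∑' I : (Ideal (𝓞 K))⁰, f (Ideal.absNorm (I : Ideal (𝓞 K))) =
      ∑ C : ClassGroup (𝓞 K), ∑' x : {x : 𝓞 K // x ≠ 0}, (w x.1 : ℂ) * psi f (rep C) x.1 := by
  classical
  have h1 : ∀ C : ClassGroup (𝓞 K),
      ∑' x : {x : 𝓞 K // x ≠ 0}, (w x.1 : ℂ) * psi f (rep C) x.1 =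
        ∑' I : (Ideal (𝓞 K))⁰, if ClassGroup.mk0 I = C then
          f (Ideal.absNorm (I : Ideal (𝓞 K))) else 0 := by
    intro C
    rw [← tsum_GC, ← (hasSum_unfold hw (GC f C) (summable_GC C hf)).tsum_eq]
    refine tsum_congr fun x => ?_
    congr 1
    unfold psi GC
    simp only [prI_coe, Ideal.absNorm_span_singleton, Ideal.dvd_span_singleton]
  simp only [h1]
  rw [← Summable.tsum_finsetSum]
  · refine tsum_congr fun I => ?_
    rw [Finset.sum_ite_eq Finset.univ]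
    simp
  · intro C _
    refine Summable.of_norm (Summable.of_nonneg_of_le (fun _ => norm_nonneg _) (fun I => ?_) hf)
    split_ifs
    · exact le_rfl
    · rw [norm_zero]; exact norm_nonneg _

/-- The twisted zeta function. -/
theorem twist_eq {w : 𝓞 K → ℝ} (hw : WOK K w) {c : ℕ → ℂ} {s : ℝ} (hs : s ≠ 0)
    (hf : Summable fun I : (Ideal (𝓞 K))⁰ => ‖c (Ideal.absNorm (I : Ideal (𝓞 K))) *
      (((Ideal.absNorm (I : Ideal (𝓞 K)) : ℝ) ^ (-s) : ℝ) : ℂ)‖) :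
    ∑' I : (Ideal (𝓞 K))⁰, c (Ideal.absNorm (I : Ideal (𝓞 K))) *
        (((Ideal.absNorm (I : Ideal (𝓞 K)) : ℝ) ^ (-s) : ℝ) : ℂ) =
      ∑ C : ClassGroup (𝓞 K), (((Ideal.absNorm (rep C : Ideal (𝓞 K)) : ℝ) ^ s : ℝ) : ℂ) *
        ∑' x : 𝓞 K, psi c (rep C) x * ((Fs K w s x : ℝ) : ℂ) := by
  classical
  have h := sum_ideals hw (f := fun n => c n * (((n : ℝ) ^ (-s) : ℝ) : ℂ)) hf
  rw [h]
  refine Finset.sum_congr rfl fun C _ => ?_
  rw [← tsum_mul_left]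
  have hN := absNorm_pos' (rep C)
  have hNr : (0 : ℝ) < (Ideal.absNorm (rep C : Ideal (𝓞 K)) : ℝ) := by exact_mod_cast hN
  have hpt : ∀ x : 𝓞 K, (w x : ℂ) * psi (fun n => c n * (((n : ℝ) ^ (-s) : ℝ) : ℂ)) (rep C) x =
      (((Ideal.absNorm (rep C : Ideal (𝓞 K)) : ℝ) ^ s : ℝ) : ℂ) *
        (psi c (rep C) x * ((Fs K w s x : ℝ) : ℂ)) := by
    intro x
    unfold psi Fs
    by_cases hx : x ∈ (rep C : Ideal (𝓞 K))
    · rw [if_pos hx, if_pos hx]
      have hdvd : Ideal.absNorm (rep C : Ideal (𝓞 K)) ∣ (Algebra.norm ℤ x).natAbs :=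
        Int.natCast_dvd.1 (Ideal.absNorm_dvd_norm_of_mem hx)
      have h1 : (((Algebra.norm ℤ x).natAbs / Ideal.absNorm (rep C : Ideal (𝓞 K)) : ℕ) : ℝ) =
          |(Algebra.norm ℤ x : ℝ)| / (Ideal.absNorm (rep C : Ideal (𝓞 K)) : ℝ) := by
        rw [Nat.cast_div hdvd hNr.ne', Nat.cast_natAbs, Int.cast_abs]
      beta_reduce
      rw [h1, Real.div_rpow (abs_nonneg _) hNr.le, Real.rpow_neg hNr.le, div_inv_eq_mul]
      push_cast
      ring
    · rw [if_neg hx, if_neg hx]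
      simp
  rw [← tsum_subtype_eq_of_support_subset (s := {x : 𝓞 K | x ≠ 0})
    (f := fun x : 𝓞 K => (((Ideal.absNorm (rep C : Ideal (𝓞 K)) : ℝ) ^ s : ℝ) : ℂ) *
        (psi c (rep C) x * ((Fs K w s x : ℝ) : ℂ)))]
  · exact tsum_congr fun x => hpt x.1
  · intro x hx hx0
    apply hx
    have hx0' : x = 0 := hx0
    subst hx0'
    have h0 : Fs K w s 0 = 0 := by
      unfold Fs
      rw [Algebra.norm_zero, Int.cast_zero, abs_zero, Real.zero_rpow (neg_ne_zero.2 hs), mul_zero]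
    beta_reduce
    rw [h0]
    simp

end Pool.Agent.Lib.MP_058a58_ag.Ch
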