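import Pool.Agent.Lib.MP_058a58_ag.Ch.Series

set_option autoImplicit false

/-!
# The Euler product for completely multiplicative coefficients
-/

namespace Pool.Agent.Lib.MP_058a58_ag.Ch

open NumberField Filter Topology nonZeroDivisors TatePole.Ded

variable (K : Type*) [Field K] [NumberField K]

/-- The term. -/
noncomputable def gI (c : ℕ → ℂ) (s : ℝ) (I : Ideal (𝓞 K)) : ℂ :=
  c (Ideal.absNorm I) * (((Ideal.absNorm I : ℝ) ^ (-s) : ℝ) : ℂ)

variable {K}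

lemma gI_mul {c : ℕ → ℂ} (hc : ∀ a b, c (a * b) = c a * c b) (s : ℝ) (I J : Ideal (𝓞 K)) :
    gI K c s (I * J) = gI K c s I * gI K c s J := by
  unfold gI
  rw [map_mul, hc, Nat.cast_mul, Real.mul_rpow (Nat.cast_nonneg _) (Nat.cast_nonneg _)]
  push_cast
  ring

lemma gI_norm_le {c : ℕ → ℂ} (hc : ∀ n, ‖c n‖ ≤ 1) (s : ℝ) (I : Ideal (𝓞 K)) :
    ‖gI K c s I‖ ≤ (Ideal.absNorm I : ℝ) ^ (-s) := by
  unfold gI
  rw [norm_mul, Complex.norm_real, Real.norm_of_nonneg (Real.rpow_nonneg (Nat.cast_nonneg _) _)]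
  exact mul_le_of_le_one_left (Real.rpow_nonneg (Nat.cast_nonneg _) _) (hc _)

open Classical in
/-- The sum over the ideals not divisible by the primes in `S`. -/
noncomputable def LS (c : ℕ → ℂ) (s : ℝ) (S : Finset (Ideal (𝓞 K))) : ℂ :=
  ∑' I : (Ideal (𝓞 K))⁰, if (∀ P ∈ S, ¬ P ∣ (I : Ideal (𝓞 K))) then gI K c s I else 0

lemma LS_empty (c : ℕ → ℂ) (s : ℝ) : LS c s (∅ : Finset (Ideal (𝓞 K))) = LK K c s := by
  unfold LS LK gI
  refine tsum_congr fun I => ?_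
  rw [if_pos (by simp)]

lemma summable_gI {c : ℕ → ℂ} (hc : ∀ n, ‖c n‖ ≤ 1) {s : ℝ} (hs : 1 < s) :
    Summable fun I : (Ideal (𝓞 K))⁰ => ‖gI K c s I‖ := summable_LK K hc hs

lemma summable_ite {c : ℕ → ℂ} (hc : ∀ n, ‖c n‖ ≤ 1) {s : ℝ} (hs : 1 < s)
    (q : (Ideal (𝓞 K))⁰ → Prop) [DecidablePred q] :
    Summable fun I : (Ideal (𝓞 K))⁰ => if q I then gI K c s I else 0 := by
  refine Summable.of_norm (Summable.of_nonneg_of_le (fun _ => norm_nonneg _) (fun I => ?_)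
    (summable_gI hc hs))
  split_ifs
  · exact le_rfl
  · rw [norm_zero]; exact norm_nonneg _

open Classical in
lemma LS_insert {c : ℕ → ℂ} (hm : ∀ a b, c (a * b) = c a * c b) (hc : ∀ n, ‖c n‖ ≤ 1) {s : ℝ}
    (hs : 1 < s) (S : Finset (Ideal (𝓞 K))) (hS : ∀ Q ∈ S, Q.IsPrime ∧ Q ≠ ⊥)
    (P : Ideal (𝓞 K)) (hP : P.IsPrime) (hP0 : P ≠ ⊥) (hPS : P ∉ S) :
    LS c s (insert P S) = (1 - gI K c s P) * LS c s S := by
  set P' : (Ideal (𝓞 K))⁰ := ⟨P, mem_nonZeroDivisors_of_ne_zero hP0⟩ with hP'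
  have hinj : Function.Injective fun I : (Ideal (𝓞 K))⁰ => P' * I := fun _ _ h =>
    mul_left_cancel h
  have hprime : Prime P := Ideal.prime_of_isPrime hP0 hP
  -- the multiples of `P`
  have h1 : ∑' I : (Ideal (𝓞 K))⁰, (if (P ∣ (I : Ideal (𝓞 K)) ∧
      ∀ Q ∈ S, ¬ Q ∣ (I : Ideal (𝓞 K))) then gI K c s I else 0) = gI K c s P * LS c s S := by
    unfold LS
    rw [← tsum_mul_left, ← hinj.tsum_eq]
    · refine tsum_congr fun I => ?_
      have h2 : ((P' * I : (Ideal (𝓞 K))⁰) : Ideal (𝓞 K)) = P * I := rfl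
      rw [h2, gI_mul hm]
      have h3 : (P ∣ P * (I : Ideal (𝓞 K)) ∧ ∀ Q ∈ S, ¬ Q ∣ P * (I : Ideal (𝓞 K))) ↔
          ∀ Q ∈ S, ¬ Q ∣ (I : Ideal (𝓞 K)) := by
        constructor
        · rintro ⟨-, h⟩ Q hQ hd
          exact h Q hQ (hd.mul_left P)
        · intro h
          refine ⟨dvd_mul_right _ _, fun Q hQ hd => ?_⟩
          have hQp : Prime Q := Ideal.prime_of_isPrime (hS Q hQ).2 (hS Q hQ).1
          rcases hQp.dvd_or_dvd hd with h4 | h4
          · have h5 : Associated Q P := hQp.associated_of_dvd hprime h4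
            rw [associated_iff_eq] at h5
            exact hPS (h5 ▸ hQ)
          · exact h Q hQ h4
      by_cases h4 : ∀ Q ∈ S, ¬ Q ∣ (I : Ideal (𝓞 K))
      · rw [if_pos (h3.2 h4), if_pos h4]
      · rw [if_neg fun h => h4 (h3.1 h), if_neg h4, mul_zero]
    · intro I hI
      have h2 : P ∣ (I : Ideal (𝓞 K)) := by
        by_contra hcon
        apply hI
        exact if_neg fun h => hcon h.1
      obtain ⟨J, hJ⟩ := h2
      have hJ0 : J ≠ 0 := by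
        rintro rfl
        rw [mul_zero] at hJ
        exact nonZeroDivisors.ne_zero I.2 hJ
      exact ⟨⟨J, mem_nonZeroDivisors_of_ne_zero hJ0⟩, Subtype.ext hJ.symm⟩
  have h2 : LS c s S = LS c s (insert P S) + ∑' I : (Ideal (𝓞 K))⁰,
      (if (P ∣ (I : Ideal (𝓞 K)) ∧ ∀ Q ∈ S, ¬ Q ∣ (I : Ideal (𝓞 K))) then gI K c s I else 0) := by
    unfold LS
    rw [← (summable_ite hc hs _).tsum_add (summable_ite hc hs _)]
    refine tsum_congr fun I => ?_
    simp only [Finset.forall_mem_insert]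
    by_cases h3 : P ∣ (I : Ideal (𝓞 K)) <;> by_cases h4 : ∀ Q ∈ S, ¬ Q ∣ (I : Ideal (𝓞 K))
    · simp [h3]
    · rw [if_neg h4, if_neg (fun h => h4 h.2), if_neg (fun h => h4 h.2), add_zero]
    · rw [if_pos h4, if_pos ⟨h3, h4⟩, if_neg (fun h => h3 h.1), add_zero]
    · rw [if_neg h4, if_neg (fun h => h4 h.2), if_neg (fun h => h4 h.2), add_zero]
  rw [h1] at h2
  linear_combination (-1 : ℂ) * h2

lemma LS_eq {c : ℕ → ℂ} (hm : ∀ a b, c (a * b) = c a * c b) (hc : ∀ n, ‖c n‖ ≤ 1) {s : ℝ}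
    (hs : 1 < s) (S : Finset (Ideal (𝓞 K))) (hS : ∀ Q ∈ S, Q.IsPrime ∧ Q ≠ ⊥) :
    LS c s S = (∏ P ∈ S, (1 - gI K c s P)) * LK K c s := by
  classical
  induction S using Finset.induction_on with
  | empty => rw [LS_empty, Finset.prod_empty, one_mul]
  | insert P S hPS ih =>
    have hS' : ∀ Q ∈ S, Q.IsPrime ∧ Q ≠ ⊥ := fun Q hQ => hS Q (Finset.mem_insert_of_mem hQ)
    rw [LS_insert hm hc hs S hS' P (hS P (Finset.mem_insert_self _ _)).1
      (hS P (Finset.mem_insert_self _ _)).2 hPS, ih hS', Finset.prod_insert hPS]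
    ring

end Pool.Agent.Lib.MP_058a58_ag.Ch
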