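import Pool.Agent.Lib.MP_058a58_ag.Dedekind2

set_option autoImplicit false

/-!
# Twists of Dedekind zeta functions by Dirichlet characters, near `s = 1`: definitions

The unfolding of the sum over the ideals needs a weight `w` on the ring of integers whose sum over the units is
`1`; the sums over the cosets of `k O` are compared with the sum over `O`.
-/

namespace Pool.Agent.Lib.MP_058a58_ag.Ch

open NumberField Filter Topology

variable (K : Type*) [Field K] [NumberField K]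

/-- The term of the weighted sum (`0` at `x = 0` for `s ≠ 0`). -/
noncomputable def Fs (w : 𝓞 K → ℝ) (s : ℝ) (x : 𝓞 K) : ℝ :=
  w x * |(Algebra.norm ℤ x : ℝ)| ^ (-s)

/-- The weighted sum over the ring of integers. -/
noncomputable def Tw (w : 𝓞 K → ℝ) (s : ℝ) : ℝ := ∑' x : 𝓞 K, Fs K w s x

/-- The properties of the weight. -/
structure WOK (w : 𝓞 K → ℝ) : Prop where
  nonneg : ∀ x, 0 ≤ w x
  unit : ∀ x : 𝓞 K, x ≠ 0 → HasSum (fun u : (𝓞 K)ˣ => w (u * x)) 1
  summ : ∀ s : ℝ, 1 < s → Summable (Fs K w s)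
  lim : ∀ (k : ℕ) (b : 𝓞 K), 1 ≤ k → ∃ l : ℝ,
    Tendsto (fun s : ℝ => ∑' x : 𝓞 K, Fs K w s (b + k * x) -
      (k : ℝ) ^ (-(Module.finrank ℚ K : ℤ)) * Tw K w s) (𝓝[>] 1) (𝓝 l)

/-- [CH1] Such a weight exists. -/
def S_CH1 : Prop := ∀ (K : Type) [Field K] [NumberField K], ∃ w : 𝓞 K → ℝ, WOK K w

end Pool.Agent.Lib.MP_058a58_ag.Ch
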