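import Pool.Agent.Lib.MP_058a58_ag.Ch.UDefs

set_option autoImplicit false

/-!
# Unfolding a sum over ideals into weighted sums over the ring of integers
-/

namespace Pool.Agent.Lib.MP_058a58_ag.Ch

open NumberField Filter Topology nonZeroDivisors

variable {K : Type*} [Field K] [NumberField K]

/-- The principal ideal of a nonzero integer. -/
noncomputable def prI (x : {x : 𝓞 K // x ≠ 0}) : (Ideal (𝓞 K))⁰ :=
  ⟨Ideal.span {x.1}, mem_nonZeroDivisors_of_ne_zero fun h => x.2 (Ideal.span_singleton_eq_bot.1 h)⟩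

lemma prI_coe (x : {x : 𝓞 K // x ≠ 0}) : (prI x : Ideal (𝓞 K)) = Ideal.span {x.1} := rfl

lemma prI_eq_iff (x y : {x : 𝓞 K // x ≠ 0}) : prI x = prI y ↔ Associated x.1 y.1 := by
  rw [← Ideal.span_singleton_eq_span_singleton, Subtype.ext_iff]
  rfl

/-- The units act simply transitively on the generators. -/
noncomputable def fibEquiv (x : {x : 𝓞 K // x ≠ 0}) :
    (𝓞 K)ˣ ≃ {y : {x : 𝓞 K // x ≠ 0} // prI y = prI x} :=
  Equiv.ofBijective
    (fun u => ⟨⟨u * x.1, mul_ne_zero u.ne_zero x.2⟩, by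
      rw [prI_eq_iff]
      exact (associated_unit_mul_left x.1 u u.isUnit)⟩)
    (by
      constructor
      · intro u v h
        have h1 : (u : 𝓞 K) * x.1 = v * x.1 := congrArg (fun z => (z.1.1 : 𝓞 K)) h
        exact Units.ext (mul_right_cancel₀ x.2 h1)
      · rintro ⟨y, hy⟩
        rw [prI_eq_iff] at hy
        obtain ⟨u, hu⟩ := hy.symm
        refine ⟨u, ?_⟩
        apply Subtype.ext
        apply Subtype.ext
        show (u : 𝓞 K) * x.1 = y.1
        rw [mul_comm]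
        exact hu)

lemma isPrincipal_prI (x : {x : 𝓞 K // x ≠ 0}) : (prI x : Ideal (𝓞 K)).IsPrincipal :=
  ⟨⟨x.1, rfl⟩⟩

lemma exists_prI (I : (Ideal (𝓞 K))⁰) (h : (I : Ideal (𝓞 K)).IsPrincipal) : ∃ x, prI x = I := by
  obtain ⟨a, ha⟩ := h
  have ha' : (I : Ideal (𝓞 K)) = Ideal.span {a} := ha
  have h0 : a ≠ 0 := by
    rintro rfl
    apply nonZeroDivisors.ne_zero I.2
    rw [ha']
    exact Ideal.span_singleton_eq_bot.2 rfl
  exact ⟨⟨a, h0⟩, Subtype.ext ha'.symm⟩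

open Classical in
lemma hasSum_fib {w : 𝓞 K → ℝ} (hw : WOK K w) (I : (Ideal (𝓞 K))⁰) :
    HasSum (fun y : {y : {x : 𝓞 K // x ≠ 0} // prI y = I} => w y.1.1)
      (if (I : Ideal (𝓞 K)).IsPrincipal then 1 else 0) := by
  split_ifs with h
  · obtain ⟨x, rfl⟩ := exists_prI I h
    rw [← (fibEquiv x).hasSum_iff]
    exact hw.unit x.1 x.2
  · have : IsEmpty {y : {x : 𝓞 K // x ≠ 0} // prI y = I} :=
      ⟨fun y => h (y.2 ▸ isPrincipal_prI y.1)⟩
    exact hasSum_empty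

open Classical in
/-- The unfolding. -/
theorem hasSum_unfold {w : 𝓞 K → ℝ} (hw : WOK K w) (G : (Ideal (𝓞 K))⁰ → ℂ)
    (hG : Summable fun I => ‖G I‖) :
    HasSum (fun x : {x : 𝓞 K // x ≠ 0} => (w x.1 : ℂ) * G (prI x))
      (∑' I : (Ideal (𝓞 K))⁰, if (I : Ideal (𝓞 K)).IsPrincipal then G I else 0) := by
  set e := Equiv.sigmaFiberEquiv (prI (K := K)) with he
  set f : {x : 𝓞 K // x ≠ 0} → ℂ := fun x => (w x.1 : ℂ) * G (prI x) with hf
  have hfib : ∀ I : (Ideal (𝓞 K))⁰, ∀ y : {y : {x : 𝓞 K // x ≠ 0} // prI y = I},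
      (f ∘ e) ⟨I, y⟩ = (w y.1.1 : ℂ) * G I := by
    intro I y
    show (w y.1.1 : ℂ) * G (prI y.1) = _
    rw [y.2]
  have hnorm : ∀ I : (Ideal (𝓞 K))⁰, HasSum (fun y : {y : {x : 𝓞 K // x ≠ 0} // prI y = I} =>
      ‖(f ∘ e) ⟨I, y⟩‖) ((if (I : Ideal (𝓞 K)).IsPrincipal then 1 else 0) * ‖G I‖) := by
    intro I
    have h1 := (hasSum_fib hw I).mul_right ‖G I‖
    have h2 : (fun y : {y : {x : 𝓞 K // x ≠ 0} // prI y = I} => ‖(f ∘ e) ⟨I, y⟩‖) =
        fun y => w y.1.1 * ‖G I‖ := by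
      funext y
      rw [hfib, norm_mul, Complex.norm_real, Real.norm_of_nonneg (hw.nonneg _)]
    rw [h2]
    exact h1
  have hsn : Summable fun p => ‖(f ∘ e) p‖ := by
    refine (summable_sigma_of_nonneg fun _ => norm_nonneg _).2 ⟨fun I => (hnorm I).summable, ?_⟩
    refine Summable.of_nonneg_of_le (fun I => tsum_nonneg fun _ => norm_nonneg _) (fun I => ?_) hG
    rw [(hnorm I).tsum_eq]
    split_ifs
    · rw [one_mul]
    · rw [zero_mul]; exact norm_nonneg _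
  have hs : Summable (f ∘ e) := hsn.of_norm
  rw [← e.hasSum_iff]
  have hval : ∑' p, (f ∘ e) p =
      ∑' I : (Ideal (𝓞 K))⁰, if (I : Ideal (𝓞 K)).IsPrincipal then G I else 0 := by
    rw [hs.tsum_sigma' fun I => (hnorm I).summable.of_norm]
    refine tsum_congr fun I => ?_
    have h1 : HasSum (fun y : {y : {x : 𝓞 K // x ≠ 0} // prI y = I} => (w y.1.1 : ℂ) * G I)
        (((if (I : Ideal (𝓞 K)).IsPrincipal then (1 : ℝ) else 0 : ℝ) : ℂ) * G I) :=
      (Complex.hasSum_ofReal.2 (hasSum_fib hw I)).mul_right (G I)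
    rw [tsum_congr (hfib I), h1.tsum_eq]
    split_ifs
    · simp
    · simp
  rw [← hval]
  exact hs.hasSum

end Pool.Agent.Lib.MP_058a58_ag.Ch
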